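import Pool.Agent.Lib.SE.O.Spec
import Pool.Agent.Lib.SE.Big.Dim
import Pool.Agent.Lib.SE.Big.Pj
import Pool.Agent.Lib.SE.Big.Tw
import Pool.Agent.Lib.SE.Big.Bas
import Pool.Agent.Lib.SE.Big.Real

/-!
# PROJECT SE-O, module o1: existence of the symmetric `Y`
-/

set_option autoImplicit false

open Module

noncomputable section

namespace SEO

open HC HC.E HC.SE SEB SES SEU SEV

namespace o1_aux

variable {T : AV} {m : ℕ} (D : Cyc T m)

/-- `x ↦ ψ(v, x) w - ψ(w, x) v` -/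
def Mv (v w : T.V) : Module.End ℝ T.V := (D.ψ v).smulRight w - (D.ψ w).smulRight v

lemma Mv_apply (v w x : T.V) : Mv D v w x = D.ψ v x • w - D.ψ w x • v := rfl

lemma Mv_sym (v w x y : T.V) : D.ψ (Mv D v w x) y = D.ψ x (Mv D v w y) := by
  rw [Mv_apply, Mv_apply, map_sub, map_sub, LinearMap.sub_apply, map_smul, map_smul, map_smul, map_smul,
    LinearMap.smul_apply, LinearMap.smul_apply, D.alt x w, D.alt x v]
  simp only [smul_eq_mul]
  ring

lemma Mv_lat {v w x : T.V} (hv : v ∈ T.L) (hw : w ∈ T.L) (hx : x ∈ T.L) : Mv D v w x ∈ T.L := by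
  obtain ⟨n1, h1⟩ := D.int v hv x hx
  obtain ⟨n2, h2⟩ := D.int w hw x hx
  rw [Mv_apply, h1, h2, Int.cast_smul_eq_zsmul, Int.cast_smul_eq_zsmul]
  exact sub_mem (T.L.smul_mem _ hw) (T.L.smul_mem _ hv)

lemma Zp_lat (k : ℕ) {x : T.V} (hx : x ∈ T.L) : (D.ZR ^ k) x ∈ T.L := by
  induction k with
  | zero => simpa using hx
  | succ k ih =>
    rw [pow_succ']
    exact D.lat _ ih

lemma Zp_inv (k : ℕ) (x y : T.V) : D.ψ ((D.ZR ^ k) x) ((D.ZR ^ k) y) = D.ψ x y := by
  induction k with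
  | zero => simp
  | succ k ih =>
    rw [pow_succ', ← ih]
    exact D.inv _ _

lemma Zp_one (hm : 3 ≤ m) : D.ZR ^ m = 1 := by
  have h := (tPj T m D hm).1
  have h1 : ∀ (k : ℕ) (x : T.V), (D.ZR ^ k) x = (D.Z ^ k) x := by
    intro k x
    induction k with
    | zero => rfl
    | succ k ih =>
      rw [pow_succ', pow_succ']
      show D.Z ((D.ZR ^ k) x) = D.Z ((D.Z ^ k) x)
      rw [ih]
  ext x
  rw [h1, h]
  rfl

/-- the summands -/
def Fk (v w : T.V) (k : ℕ) : Module.End ℝ T.V := D.ZR ^ k * Mv D v w * D.ZR ^ k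

/-- the operator `Y` -/
def Yv (v w : T.V) : Module.End ℝ T.V := ∑ k ∈ Finset.range m, Fk D v w k

lemma Fk_m (hm : 3 ≤ m) (v w : T.V) : Fk D v w m = Fk D v w 0 := by
  unfold Fk
  rw [Zp_one D hm, pow_zero]

lemma sum_succ (hm : 3 ≤ m) (v w : T.V) : ∑ k ∈ Finset.range m, Fk D v w (k + 1) = Yv D v w := by
  have h1 := Finset.sum_range_succ (Fk D v w) m
  have h2 := Finset.sum_range_succ' (Fk D v w) m
  rw [h1, Fk_m D hm] at h2
  exact (add_right_cancel h2).symm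

lemma Yv_Z (hm : 3 ≤ m) (v w : T.V) : D.ZR * Yv D v w * D.ZR = Yv D v w := by
  have h0 : D.ZR * Yv D v w * D.ZR = ∑ k ∈ Finset.range m, Fk D v w (k + 1) := by
    unfold Yv
    rw [Finset.mul_sum, Finset.sum_mul]
    refine Finset.sum_congr rfl fun k _ => ?_
    unfold Fk
    have e : D.ZR ^ (k + 1) * Mv D v w * D.ZR ^ (k + 1) =
        (D.ZR * D.ZR ^ k) * Mv D v w * (D.ZR ^ k * D.ZR) := by
      rw [← pow_succ', ← pow_succ]
    rw [e]
    simp only [mul_assoc]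
  rw [h0, sum_succ D hm]

lemma Fk_sym (hm : 3 ≤ m) (v w : T.V) {k : ℕ} (hk : k ≤ m) (x y : T.V) :
    D.ψ (Fk D v w k x) y = D.ψ x (Fk D v w (m - k) y) := by
  have h1 : ∀ z, (D.ZR ^ k) ((D.ZR ^ (m - k)) z) = z := by
    intro z
    have : (D.ZR ^ k * D.ZR ^ (m - k)) z = z := by
      rw [← pow_add, Nat.add_sub_cancel' hk, Zp_one D hm]
      rfl
    exact this
  have h2 : ∀ z, (D.ZR ^ (m - k)) ((D.ZR ^ k) z) = z := by
    intro z
    have : (D.ZR ^ (m - k) * D.ZR ^ k) z = z := by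
      rw [← pow_add, Nat.sub_add_cancel hk, Zp_one D hm]
      rfl
    exact this
  show D.ψ ((D.ZR ^ k) (Mv D v w ((D.ZR ^ k) x))) y = D.ψ x ((D.ZR ^ (m - k)) (Mv D v w ((D.ZR ^ (m - k)) y)))
  conv_lhs => rw [← h1 y]
  rw [Zp_inv, Mv_sym, ← Zp_inv D (m - k), h2]

lemma Yv_sym (hm : 3 ≤ m) (v w : T.V) : Sy D.ψ (Yv D v w) := by
  intro x y
  have h1 : D.ψ (Yv D v w x) y = ∑ k ∈ Finset.range m, D.ψ x (Fk D v w (m - k) y) := by
    unfold Yv
    rw [LinearMap.sum_apply, map_sum, LinearMap.sum_apply]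
    exact Finset.sum_congr rfl fun k hk => Fk_sym D hm v w (Finset.mem_range.1 hk).le x y
  have h2 : ∑ k ∈ Finset.range m, Fk D v w (m - k) = Yv D v w := by
    rw [← sum_succ D hm, ← Finset.sum_range_reflect]
    refine Finset.sum_congr rfl fun k hk => ?_
    have := Finset.mem_range.1 hk
    congr 1
    omega
  rw [h1, ← map_sum, ← LinearMap.sum_apply, h2]

lemma Yv_rat {v w : T.V} (hv : v ∈ T.L) (hw : w ∈ T.L) : RatEnd T (Yv D v w) := by
  intro x hx
  refine ⟨1, one_ne_zero, ?_⟩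
  rw [one_smul]
  unfold Yv
  rw [LinearMap.sum_apply]
  exact sum_mem fun k _ => Zp_lat D k (Mv_lat D hv hw (Zp_lat D k hx))

/-- the component -/
def Ps (s : (ZMod m)ˣ) (v x : T.V) : ℂ := ∑ k ∈ Finset.range m, zet m s ^ k * (D.ψ v ((D.ZR ^ k) x) : ℂ)

lemma Ws_pow {s : (ZMod m)ˣ} {a : Frm T} (ha : a ∈ Ws D s) (k : ℕ) (x : T.V) :
    a ((D.ZR ^ k) x) = zet m s ^ k * a x := by
  induction k with
  | zero => simp
  | succ k ih =>
    rw [pow_succ', pow_succ', mul_assoc, ← ih]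
    exact ha _

lemma a_Yv {s : (ZMod m)ˣ} {a : Frm T} (ha : a ∈ Ws D s) (v w x : T.V) :
    a (Yv D v w x) = Ps D s v x * a w - Ps D s w x * a v := by
  unfold Yv Ps
  rw [LinearMap.sum_apply, map_sum, Finset.sum_mul, Finset.sum_mul, ← Finset.sum_sub_distrib]
  refine Finset.sum_congr rfl fun k _ => ?_
  show a ((D.ZR ^ k) (Mv D v w ((D.ZR ^ k) x))) = _
  rw [Ws_pow D ha, Mv_apply, map_sub, map_smul, map_smul, Complex.real_smul, Complex.real_smul]
  ring

lemma Ps_add (s : (ZMod m)ˣ) (v v' x : T.V) : Ps D s (v + v') x = Ps D s v x + Ps D s v' x := by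
  unfold Ps
  rw [← Finset.sum_add_distrib]
  refine Finset.sum_congr rfl fun k _ => ?_
  rw [map_add, LinearMap.add_apply]
  push_cast
  ring

lemma Ps_smul (s : (ZMod m)ˣ) (r : ℝ) (v x : T.V) : Ps D s (r • v) x = r * Ps D s v x := by
  unfold Ps
  rw [Finset.mul_sum]
  refine Finset.sum_congr rfl fun k _ => ?_
  rw [map_smul, LinearMap.smul_apply, smul_eq_mul]
  push_cast
  ring

lemma zet_mul_neg (hm : 3 ≤ m) (s : (ZMod m)ˣ) : zet m s * zet m (-s) = 1 := by
  have hm0 : m ≠ 0 := by omega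
  rw [Bas_aux.zet_conj hm, Complex.mul_conj, Complex.normSq_eq_norm_sq, zet, norm_pow,
    IsPrimitiveRoot.norm'_eq_one (Complex.isPrimitiveRoot_exp m hm0) hm0]
  simp

/-- the forms in the opposite eigenspace -/
lemma b_Ps (hm : 3 ≤ m) (s : (ZMod m)ˣ) {b : Frm T} (hb : b ∈ Ws D (-s)) :
    ∃ v₁ v₂ : T.V, ∀ x, (m : ℂ) * b x = Ps D s v₁ x + Complex.I * Ps D s v₂ x := by
  obtain ⟨v₁, v₂, h⟩ := Real_aux.repC D b
  refine ⟨v₁, v₂, fun x => ?_⟩
  have h1 : ∑ k ∈ Finset.range m, zet m s ^ k * b ((D.ZR ^ k) x) = (m : ℂ) * b x := by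
    have h2 : ∀ k ∈ Finset.range m, zet m s ^ k * b ((D.ZR ^ k) x) = b x := by
      intro k _
      rw [Ws_pow D hb, ← mul_assoc, ← mul_pow, zet_mul_neg hm, one_pow, one_mul]
    rw [Finset.sum_congr rfl h2, Finset.sum_const, Finset.card_range, nsmul_eq_mul]
  rw [← h1]
  unfold Ps
  rw [Finset.mul_sum, ← Finset.sum_add_distrib]
  refine Finset.sum_congr rfl fun k _ => ?_
  rw [h]
  ring

end o1_aux

open o1_aux in
theorem to1 : S_o1 := by
  intro T m D hm hdim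
  by_contra hno
  push Not at hno
  -- all the operators vanish
  have hY : ∀ v ∈ T.L, ∀ w ∈ T.L, Yv D v w = 0 := by
    intro v hv w hw
    refine hno (Yv D v w) (Yv_rat D hv hw) (Yv_sym D hm v w) fun x => ?_
    exact LinearMap.congr_fun (Yv_Z D hm v w) x
  have hdimW : ∀ s, finrank ℂ (Ws D s) = 2 := fun s =>
    (tDim tPj tTw (tBas tPj) T m 2 D hm (by rw [hdim]) s).1
  have hspan : Submodule.span ℝ (T.L : Set T.V) = ⊤ := IsZLattice.span_top
  -- a nonzero form in the eigenspace of `1`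
  have hne : Ws D 1 ≠ ⊥ := by
    intro h0
    have h1 := hdimW 1
    rw [h0, finrank_bot] at h1
    exact absurd h1 (by norm_num)
  obtain ⟨a, ha, ha0⟩ := Submodule.exists_mem_ne_zero_of_ne_bot hne
  obtain ⟨w, hw, haw⟩ : ∃ w ∈ T.L, a w ≠ 0 := by
    by_contra h0
    push Not at h0
    refine ha0 (LinearMap.ext_on hspan fun x hx => ?_)
    rw [h0 x hx, LinearMap.zero_apply]
  -- the relation
  have hrel : ∀ v x, a w * Ps D 1 v x = a v * Ps D 1 w x := by
    intro v x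
    have hv : v ∈ Submodule.span ℝ (T.L : Set T.V) := by rw [hspan]; trivial
    induction hv using Submodule.span_induction with
    | mem v hv =>
      have h1 := a_Yv D ha v w x
      rw [hY v hv w hw, LinearMap.zero_apply, map_zero] at h1
      linear_combination -h1
    | zero =>
      have h1 := Ps_smul D 1 0 w x
      rw [zero_smul] at h1
      rw [h1, map_zero]
      push_cast
      ring
    | add v v' _ _ h1 h2 =>
      rw [Ps_add, map_add]
      linear_combination h1 + h2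
    | smul r v _ h1 =>
      rw [Ps_smul, map_smul, Complex.real_smul]
      linear_combination (r : ℂ) * h1
  have hm0 : (m : ℂ) ≠ 0 := by
    have : m ≠ 0 := by omega
    exact_mod_cast this
  have hb : ∀ b ∈ Ws D (-1), ∃ c : ℂ, ∀ x, b x = c * Ps D 1 w x := by
    intro b hb
    obtain ⟨v₁, v₂, h⟩ := b_Ps D hm 1 hb
    refine ⟨(a v₁ + Complex.I * a v₂) / (m * a w), fun x => ?_⟩
    have h1 := hrel v₁ x
    have h2 := hrel v₂ x
    have h3 := h x
    field_simp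
    linear_combination a w * h3 + h1 + Complex.I * h2
  -- the dimension of the opposite eigenspace
  have hne' : Ws D (-1) ≠ ⊥ := by
    intro h0
    have h1 := hdimW (-1)
    rw [h0, finrank_bot] at h1
    exact absurd h1 (by norm_num)
  obtain ⟨b₀, hb₀, hb₀0⟩ := Submodule.exists_mem_ne_zero_of_ne_bot hne'
  obtain ⟨c₀, hc₀⟩ := hb b₀ hb₀
  have hc₀0 : c₀ ≠ 0 := by
    rintro rfl
    refine hb₀0 (LinearMap.ext fun x => ?_)
    rw [hc₀ x, zero_mul, LinearMap.zero_apply]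
  have h1 : finrank ℂ (Ws D (-1)) ≤ 1 := by
    refine finrank_le_one (⟨b₀, hb₀⟩ : Ws D (-1)) fun b => ?_
    obtain ⟨c, hc⟩ := hb b.1 b.2
    refine ⟨c / c₀, Subtype.ext (LinearMap.ext fun x => ?_)⟩
    show (c / c₀) • b₀ x = b.1 x
    rw [hc₀ x, hc x, smul_eq_mul]
    field_simp
  rw [hdimW] at h1
  exact absurd h1 (by norm_num)

end SEO
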