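import Pool.Agent.Lib.SE.O.Spec
import Pool.Agent.Lib.SE.Big.Pj
import Pool.Agent.Lib.SE.Big.Bas

/-!
# PROJECT SE-O, module o2: complex linear, injective or zero on every eigenspace (helper85)

`A(u) = ψ(u, ·) + i ψ(i u, ·)` is a conjugate linear bijection from `T.V` to the forms of type `(1,0)`; the
symmetric `Y` becomes composition with `Y`, and everything is a computation with one vector.
-/

set_option autoImplicit false

open Module

noncomputable section

namespace SEO

open HC HC.E HC.SE SEB SES SEU SEV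

namespace o2_aux

variable {T : AV} {m : ℕ}

theorem zet_pow (hm : 3 ≤ m) (s : (ZMod m)ˣ) : zet m s ^ m = 1 := by
  have hm0 : (m : ℂ) ≠ 0 := by exact_mod_cast (by omega : m ≠ 0)
  have h1 : Complex.exp (2 * Real.pi * Complex.I / m) ^ m = 1 := by
    rw [← Complex.exp_nat_mul]
    have h2 : (m : ℂ) * (2 * Real.pi * Complex.I / m) = 2 * Real.pi * Complex.I := by
      field_simp
    rw [h2, Complex.exp_two_pi_mul_I]
  unfold zet
  rw [← pow_mul, Nat.mul_comm, pow_mul, h1, one_pow]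

theorem conj_mul (hm : 3 ≤ m) (s : (ZMod m)ˣ) :
    (starRingEnd ℂ) (zet m s) * zet m s = 1 := by
  have h1 : ‖zet m s‖ = 1 := by
    have h := congrArg norm (zet_pow hm s)
    rw [norm_pow, norm_one] at h
    exact (pow_eq_one_iff_of_nonneg (norm_nonneg _) (by omega)).1 h
  rw [mul_comm, Complex.mul_conj, Complex.normSq_eq_norm_sq, h1]
  norm_num

theorem zne (s : (ZMod m)ˣ) : zet m s ≠ 0 := pow_ne_zero _ (Complex.exp_ne_zero _)

theorem psi_I (D : Cyc T m) (u v : T.V) :
    D.ψ (Complex.I • u) v = -D.ψ u (Complex.I • v) := by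
  have h := D.cpx u (-(Complex.I • v))
  rw [smul_neg, smul_smul, Complex.I_mul_I, neg_smul, one_smul, neg_neg, map_neg] at h
  exact h

theorem psi_self (D : Cyc T m) (u : T.V) : D.ψ u u = 0 := by
  have h := D.alt u u
  linarith

theorem split (c : ℂ) (u : T.V) : c • u = c.re • u + c.im • (Complex.I • u) := by
  have h1 : (c.im • (Complex.I • u) : T.V) = ((c.im : ℂ) * Complex.I) • u := by
    rw [← smul_smul]
    rfl
  have h2 : (c.re • u : T.V) = ((c.re : ℂ)) • u := rfl
  rw [h1, h2, ← add_smul, Complex.re_add_im]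

theorem psi_smul (D : Cyc T m) (c : ℂ) (u v : T.V) :
    D.ψ (c • u) v = c.re * D.ψ u v + c.im * D.ψ (Complex.I • u) v := by
  rw [split c u, map_add, map_smul, map_smul, LinearMap.add_apply, LinearMap.smul_apply,
    LinearMap.smul_apply, smul_eq_mul, smul_eq_mul]

/-- the second variable -/
theorem psi_smulr (D : Cyc T m) (c : ℂ) (u v : T.V) :
    D.ψ u (c • v) = c.re * D.ψ u v + c.im * D.ψ u (Complex.I • v) := by
  rw [split c v, map_add, map_smul, map_smul, smul_eq_mul, smul_eq_mul]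

theorem psi_smul2 (D : Cyc T m) (l c : ℂ) (u : T.V) :
    D.ψ (l • u) (c • u) = (l * (starRingEnd ℂ) c).im * D.ψ (Complex.I • u) u := by
  have h1 : D.ψ u (Complex.I • u) = -D.ψ (Complex.I • u) u := D.alt _ _
  have h2 : D.ψ (Complex.I • u) (Complex.I • u) = 0 := psi_self D _
  have e1 := psi_smul D l u (c • u)
  have e2 := psi_smulr D c u u
  have e3 := psi_smulr D c (Complex.I • u) u
  rw [e1, e2, e3, psi_self, h1, h2, Complex.mul_im, Complex.conj_re, Complex.conj_im]
  ring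

/-- `A(u) = ψ(u, ·) + i ψ(i u, ·)` -/
def A (D : Cyc T m) (u : T.V) : Frm T where
  toFun v := ((D.ψ u v : ℝ) : ℂ) + Complex.I * ((D.ψ (Complex.I • u) v : ℝ) : ℂ)
  map_add' v w := by
    rw [map_add, map_add]
    push_cast
    ring
  map_smul' r v := by
    rw [map_smul, map_smul, smul_eq_mul, smul_eq_mul, Complex.real_smul, RingHom.id_apply]
    push_cast
    ring

theorem A_apply (D : Cyc T m) (u v : T.V) :
    A D u v = ((D.ψ u v : ℝ) : ℂ) + Complex.I * ((D.ψ (Complex.I • u) v : ℝ) : ℂ) := rfl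

theorem A_re (D : Cyc T m) (u v : T.V) : (A D u v).re = D.ψ u v := by
  rw [A_apply]
  simp

theorem A_smul (D : Cyc T m) (c : ℂ) (u : T.V) : A D (c • u) = (starRingEnd ℂ) c • A D u := by
  refine LinearMap.ext fun v => ?_
  have e1 := psi_smul D c u v
  have e2 : D.ψ (Complex.I • (c • u)) v = c.re * D.ψ (Complex.I • u) v - c.im * D.ψ u v := by
    rw [smul_comm, psi_smul D c (Complex.I • u) v, smul_smul, Complex.I_mul_I, neg_smul, one_smul,
      map_neg, LinearMap.neg_apply]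
    ring
  rw [LinearMap.smul_apply, A_apply, A_apply, smul_eq_mul, e1, e2]
  apply Complex.ext
  · simp
  · simp
    ring

theorem A_I (D : Cyc T m) (u v : T.V) : A D u (Complex.I • v) = Complex.I * A D u v := by
  have h1 := psi_I D u v
  have h2 := D.cpx u v
  have h3 : D.ψ u (Complex.I • v) = -D.ψ (Complex.I • u) v := by linarith
  rw [A_apply, A_apply, h2, h3]
  push_cast
  have hI := Complex.I_mul_I
  linear_combination (-((D.ψ (Complex.I • u) v : ℝ) : ℂ)) * hI

theorem A_inj (D : Cyc T m) {u w : T.V} (h : A D u = A D w) : u = w := by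
  by_contra hne
  have h1 : ∀ v, D.ψ u v = D.ψ w v := fun v => by rw [← A_re, ← A_re, h]
  have h2 : u - w ≠ 0 := sub_ne_zero.2 hne
  have h3 := D.pos (u - w) h2
  have h4 : D.ψ (Complex.I • (u - w)) (u - w) = -D.ψ (u - w) (Complex.I • (u - w)) := psi_I D _ _
  rw [h4, map_sub, LinearMap.sub_apply, h1, sub_self, neg_zero] at h3
  exact lt_irrefl _ h3

theorem psi_surj (D : Cyc T m) (f : T.V →ₗ[ℝ] ℝ) : ∃ u, ∀ v, D.ψ u v = f v := by
  have hinj : Function.Injective D.ψ := by
    intro u w h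
    refine A_inj D (LinearMap.ext fun v => ?_)
    have h1 : ∀ v, D.ψ (Complex.I • u) v = D.ψ (Complex.I • w) v := by
      intro v
      rw [psi_I, psi_I, h]
    rw [A_apply, A_apply, h1, h]
  have hfin : finrank ℝ T.V = finrank ℝ (T.V →ₗ[ℝ] ℝ) := (Subspace.dual_finrank_eq).symm
  obtain ⟨u, hu⟩ := (LinearMap.injective_iff_surjective_of_finrank_eq_finrank hfin).1 hinj f
  exact ⟨u, fun v => by rw [hu]⟩

theorem A_surj (D : Cyc T m) (a : Frm T) (ha : ∀ v, a (Complex.I • v) = Complex.I * a v) :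
    ∃ u, A D u = a := by
  obtain ⟨u, hu⟩ := psi_surj D
    { toFun := fun v => (a v).re
      map_add' := fun v w => by rw [map_add, Complex.add_re]
      map_smul' := fun r v => by
        rw [map_smul, Complex.real_smul, Complex.re_ofReal_mul, RingHom.id_apply, smul_eq_mul] }
  refine ⟨u, LinearMap.ext fun v => ?_⟩
  have h1 : D.ψ u v = (a v).re := hu v
  have h2 : D.ψ u (Complex.I • v) = (a (Complex.I • v)).re := hu _
  rw [ha v] at h2
  have h3 : D.ψ (Complex.I • u) v = (a v).im := by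
    rw [psi_I, h2]
    simp
  rw [A_apply, h1, h3]
  apply Complex.ext
  · simp
  · simp

/-- elements of a one dimensional space -/
theorem line (D : Cyc T m) {s : (ZMod m)ˣ} (hp : D.p s = 1) {a b : Frm T} (ha : a ∈ Ws10 D s)
    (ha0 : a ≠ 0) (hb : b ∈ Ws10 D s) : ∃ c : ℂ, b = c • a := by
  have h1 : (⟨a, ha⟩ : Ws10 D s) ≠ 0 := fun h => ha0 (congrArg Subtype.val h)
  obtain ⟨c, hc⟩ := (finrank_eq_one_iff_of_nonzero' _ h1).1 hp ⟨b, hb⟩
  exact ⟨c, (congrArg Subtype.val hc).symm⟩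

/-- CONJUGATE LINEAR: zero on the forms of type `(1,0)` -/
theorem L1 (D : Cyc T m) (hm : 3 ≤ m) (s : (ZMod m)ˣ) (hp : D.p s = 1) (W : Module.End ℝ T.V)
    (hW : ∀ v, W (Complex.I • v) = -(Complex.I • W v)) (hS : ∀ u v, D.ψ (W u) v = D.ψ u (W v))
    (hZ : ∀ v, D.Z (W (D.Z v)) = W v) {a : Frm T} (ha : a ∈ Ws10 D s) : pre W a = 0 := by
  obtain ⟨u, rfl⟩ := A_surj D a ha.2
  have hc : ∀ v, A D (W u) v = (starRingEnd ℂ) (A D u (W v)) := by
    intro v
    have h1 : D.ψ (Complex.I • u) (W v) = -D.ψ (Complex.I • W u) v := by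
      rw [← hS, hW, map_neg, LinearMap.neg_apply]
    rw [A_apply, A_apply, ← hS u v, h1]
    apply Complex.ext
    · simp
    · simp
  by_cases hu : A D u = 0
  · rw [hu, map_zero]
  have hmem : A D (W u) ∈ Ws10 D s := by
    refine ⟨fun v => ?_, fun v => A_I D _ v⟩
    have h1 : A D u (W v) = zet m s * A D u (W (D.Z v)) := by
      have h2 : A D u (D.Z (W (D.Z v))) = zet m s * A D u (W (D.Z v)) := ha.1 _
      rw [hZ] at h2
      exact h2
    rw [hc, hc, h1, map_mul, ← mul_assoc, mul_comm (zet m s), conj_mul hm, one_mul]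
  obtain ⟨c, hcu⟩ := line D hp ha hu hmem
  have hWu : W u = (starRingEnd ℂ) c • u := by
    apply A_inj D
    rw [hcu, A_smul, Complex.conj_conj]
  have hg : (starRingEnd ℂ) c = 0 := by
    by_contra hg
    set g := (starRingEnd ℂ) c with hgdef
    have hu0 : u ≠ 0 := by
      rintro rfl
      apply hu
      refine LinearMap.ext fun v => ?_
      rw [A_apply, smul_zero, map_zero, LinearMap.zero_apply, LinearMap.zero_apply]
      simp
    have hpos := D.pos u hu0
    have hWs : ∀ l : ℂ, W (l • u) = (starRingEnd ℂ) l • W u := by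
      intro l
      rw [split l u, map_add, map_smul, map_smul, hW, split ((starRingEnd ℂ) l) (W u),
        Complex.conj_re, Complex.conj_im, smul_neg, neg_smul]
    have h1 := hS ((starRingEnd ℂ) (Complex.I / g) • u) u
    rw [hWs, Complex.conj_conj, hWu, smul_smul, div_mul_cancel₀ _ hg, psi_smul2, ← map_mul,
      div_mul_cancel₀ _ hg, Complex.conj_I] at h1
    simp at h1
    linarith
  refine LinearMap.ext fun v => ?_
  have h1 := hc v
  rw [hcu] at h1
  have hc0 : c = 0 := by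
    have := congrArg (starRingEnd ℂ) hg
    rwa [Complex.conj_conj, map_zero] at this
  rw [hc0, zero_smul, LinearMap.zero_apply] at h1
  have h2 := congrArg (starRingEnd ℂ) h1
  rw [Complex.conj_conj, map_zero] at h2
  exact h2.symm

/-- a complex linear symmetric `Y` with `Z Y Z = Y` maps `Ws10 D s` to `Ws10 D (-s)` -/
theorem pre_mem (D : Cyc T m) (hm : 3 ≤ m) (s : (ZMod m)ˣ) (Y : Module.End ℝ T.V) (hC : Cx Y)
    (hZ : ∀ v, D.Z (Y (D.Z v)) = Y v) {a : Frm T} (ha : a ∈ Ws10 D s) :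
    pre Y a ∈ Ws10 D (-s) := by
  refine ⟨fun v => ?_, fun v => ?_⟩
  · have h1 : a (Y v) = zet m s * a (Y (D.Z v)) := by
      have h2 : a (D.Z (Y (D.Z v))) = zet m s * a (Y (D.Z v)) := ha.1 _
      rwa [hZ] at h2
    show a (Y (D.Z v)) = zet m (-s) * a (Y v)
    rw [h1, Bas_aux.zet_conj hm, ← mul_assoc, conj_mul hm, one_mul]
  · show a (Y (Complex.I • v)) = Complex.I * a (Y v)
    rw [hC, ha.2]

/-- `pre Y (A u) = A (Y u)` -/
theorem pre_A (D : Cyc T m) (Y : Module.End ℝ T.V) (hC : Cx Y) (hS : Sy D.ψ Y) (u : T.V) :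
    pre Y (A D u) = A D (Y u) := by
  refine LinearMap.ext fun v => ?_
  show A D u (Y v) = A D (Y u) v
  rw [A_apply, A_apply, ← hS, ← hS, hC]

/-- KILLED AT `-s` IMPLIES KILLED AT `s` -/
theorem L2 (D : Cyc T m) (hm : 3 ≤ m) (s : (ZMod m)ˣ) (hp : D.p (-s) = 1) (Y : Module.End ℝ T.V)
    (hC : Cx Y) (hS : Sy D.ψ Y) (hZ : ∀ v, D.Z (Y (D.Z v)) = Y v) {c : Frm T}
    (hc : c ∈ Ws10 D (-s)) (hc0 : c ≠ 0) (hY : pre Y c = 0) {a : Frm T} (ha : a ∈ Ws10 D s) :
    pre Y a = 0 := by
  have hmem := pre_mem D hm s Y hC hZ ha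
  obtain ⟨u, rfl⟩ := A_surj D a ha.2
  obtain ⟨w, rfl⟩ := A_surj D c hc.2
  obtain ⟨α, hα⟩ := line D hp hc hc0 hmem
  have hz : A D (0 : T.V) = 0 := by
    refine LinearMap.ext fun v => ?_
    rw [A_apply, smul_zero, map_zero, LinearMap.zero_apply, LinearMap.zero_apply]
    simp
  have h1 : Y u = (starRingEnd ℂ) α • w := by
    apply A_inj D
    rw [← pre_A D Y hC hS, hα, A_smul, Complex.conj_conj]
  have h2 : Y w = 0 := by
    apply A_inj D
    rw [← pre_A D Y hC hS, hY, hz]
  have hw0 : w ≠ 0 := by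
    rintro rfl
    exact hc0 hz
  by_cases hg : (starRingEnd ℂ) α = 0
  · rw [hα]
    have : α = 0 := by
      have := congrArg (starRingEnd ℂ) hg
      rwa [Complex.conj_conj, map_zero] at this
    rw [this, zero_smul]
  · exfalso
    have hYs : ∀ l : ℂ, Y (l • u) = l • Y u := by
      intro l
      rw [split l u, map_add, map_smul, map_smul, hC, split l (Y u)]
    have h3 := hS ((Complex.I / (starRingEnd ℂ) α) • u) w
    rw [hYs, h1, smul_smul, div_mul_cancel₀ _ hg, h2, map_zero] at h3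
    exact absurd (D.pos w hw0) (by rw [h3]; exact lt_irrefl _)

/-- TYPES -/
theorem dec (D : Cyc T m) (hm : 3 ≤ m) (s : (ZMod m)ˣ) {a : Frm T} (ha : a ∈ Ws D s) :
    ∃ b ∈ Ws10 D s, ∃ c ∈ Ws10 D (-s), (∀ v, (2 : ℂ) * a v = b v + (starRingEnd ℂ) (c v)) ∧
      (∀ v, b v = a v - Complex.I * a (Complex.I • v)) ∧
      ∀ v, c v = (starRingEnd ℂ) (a v + Complex.I * a (Complex.I • v)) := by
  have hII : ∀ v : T.V, Complex.I • (Complex.I • v) = -v := by
    intro v
    rw [smul_smul, Complex.I_mul_I, neg_smul, one_smul]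
  have hI := Complex.I_mul_I
  have hJ : pre (mulI T) a ∈ Ws D s := by
    intro v
    show a (Complex.I • D.Z v) = zet m s * a (Complex.I • v)
    rw [← map_smul D.Z, ha]
  have hb : a - Complex.I • pre (mulI T) a ∈ Ws D s := sub_mem ha (Submodule.smul_mem _ _ hJ)
  have hc : a + Complex.I • pre (mulI T) a ∈ Ws D s := add_mem ha (Submodule.smul_mem _ _ hJ)
  obtain ⟨-, -, -, -, hconj⟩ := tBas tPj T m D hm
  obtain ⟨c, hcm, hcv⟩ := hconj s _ hc
  have hbv : ∀ v, (a - Complex.I • pre (mulI T) a) v = a v - Complex.I * a (Complex.I • v) :=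
    fun v => rfl
  have hcv' : ∀ v, c v = (starRingEnd ℂ) (a v + Complex.I * a (Complex.I • v)) := fun v => hcv v
  refine ⟨a - Complex.I • pre (mulI T) a, ⟨hb, fun v => ?_⟩, c, ⟨hcm, fun v => ?_⟩, fun v => ?_,
    hbv, hcv'⟩
  · rw [hbv, hbv, hII, map_neg]
    linear_combination (a (Complex.I • v)) * hI
  · rw [hcv', hcv', hII, map_neg]
    have e : a (Complex.I • v) + Complex.I * -(a v) =
        -Complex.I * (a v + Complex.I * a (Complex.I • v)) := by
      linear_combination (a (Complex.I • v)) * hI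
    rw [e, map_mul, map_neg, Complex.conj_I, neg_neg]
  · rw [hbv, hcv', Complex.conj_conj]
    ring

/-- killed on both types -/
theorem L4 (D : Cyc T m) (hm : 3 ≤ m) (s : (ZMod m)ˣ) (W : Module.End ℝ T.V)
    (h1 : ∀ b ∈ Ws10 D s, pre W b = 0) (h2 : ∀ b ∈ Ws10 D (-s), pre W b = 0) {a : Frm T}
    (ha : a ∈ Ws D s) : pre W a = 0 := by
  obtain ⟨b, hb, c, hc, h, -, -⟩ := dec D hm s ha
  refine LinearMap.ext fun v => ?_
  have e1 : b (W v) = 0 := LinearMap.congr_fun (h1 b hb) v
  have e2 : c (W v) = 0 := LinearMap.congr_fun (h2 c hc) v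
  have e3 := h (W v)
  rw [e1, e2, map_zero, add_zero] at e3
  show a (W v) = 0
  exact (mul_eq_zero.1 e3).resolve_left two_ne_zero

end o2_aux

/-- COMPLEX LINEAR, AND INJECTIVE OR ZERO ON EVERY EIGENSPACE. -/
theorem to2 : S_o2 := by
  intro T m D hm _ hp Y hS hZ
  have hC : Cx Y := by
    have hII : ∀ v : T.V, Complex.I • (Complex.I • v) = -v := by
      intro v
      rw [smul_smul, Complex.I_mul_I, neg_smul, one_smul]
    set W : Module.End ℝ T.V := Y + mulI T * Y * mulI T with hWdef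
    have hWv : ∀ v, W v = Y v + Complex.I • Y (Complex.I • v) := fun v => rfl
    have hW : ∀ v, W (Complex.I • v) = -(Complex.I • W v) := by
      intro v
      rw [hWv, hWv, hII, map_neg, smul_neg, smul_add, hII]
      abel
    have hSW : ∀ u v, D.ψ (W u) v = D.ψ u (W v) := by
      intro u v
      have h1 : D.ψ (Complex.I • Y (Complex.I • u)) v = D.ψ u (Complex.I • Y (Complex.I • v)) := by
        rw [o2_aux.psi_I, hS, o2_aux.psi_I, neg_neg]
      rw [hWv, hWv, map_add, LinearMap.add_apply, map_add, hS, h1]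
    have hZW : ∀ v, D.Z (W (D.Z v)) = W v := by
      intro v
      have h1 : D.Z (Complex.I • Y (Complex.I • D.Z v)) = Complex.I • Y (Complex.I • v) := by
        have h2 : Complex.I • D.Z v = D.Z (Complex.I • v) := (map_smul D.Z _ _).symm
        rw [h2, LinearMap.map_smul, hZ]
      rw [hWv, hWv, map_add, hZ, h1]
    have h0 : ∀ s, ∀ a ∈ Ws D s, pre W a = 0 := fun s a ha =>
      o2_aux.L4 D hm s W (fun b hb => o2_aux.L1 D hm s (hp s) W hW hSW hZW hb)
        (fun b hb => o2_aux.L1 D hm (-s) (hp (-s)) W hW hSW hZW hb) ha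
    obtain ⟨htop, -, -, hpre, -⟩ := tBas tPj T m D hm
    have hker : (⊤ : Submodule ℂ (Frm T)) ≤ LinearMap.ker (pre W) := by
      rw [← htop]
      exact iSup_le fun s a ha => LinearMap.mem_ker.2 (h0 s a ha)
    have hW0 : W = 0 := by
      refine (hpre W 0).2.2.2 ?_
      refine LinearMap.ext fun a => ?_
      rw [LinearMap.mem_ker.1 (hker (Submodule.mem_top (x := a)))]
      refine LinearMap.ext fun v => ?_
      show (0 : ℂ) = a 0
      rw [map_zero]
    intro v
    have h1 := hWv v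
    rw [hW0, LinearMap.zero_apply] at h1
    have h2 : Complex.I • (Y v + Complex.I • Y (Complex.I • v)) = 0 := by rw [← h1, smul_zero]
    rw [smul_add, hII] at h2
    have h3 := eq_neg_of_add_eq_zero_left h2
    rw [neg_neg] at h3
    exact h3.symm
  refine ⟨hC, ?_⟩
  rintro s ⟨a, ha, hYa⟩ b hb hYb
  obtain ⟨b1, hb1, b2, hb2, hdec, hv1, hv2⟩ := o2_aux.dec D hm s hb
  have hbY : ∀ v, b (Y v) = 0 := fun v => LinearMap.congr_fun hYb v
  have k1 : pre Y b1 = 0 := by
    refine LinearMap.ext fun v => ?_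
    show b1 (Y v) = 0
    rw [hv1, hbY, ← hC, hbY, mul_zero, sub_zero]
  have k2 : pre Y b2 = 0 := by
    refine LinearMap.ext fun v => ?_
    show b2 (Y v) = 0
    rw [hv2, hbY, ← hC, hbY, mul_zero, add_zero, map_zero]
  -- one killed form kills everything
  have kill : ∀ t : (ZMod m)ˣ, ∀ c ∈ Ws10 D t, c ≠ 0 → pre Y c = 0 →
      (∀ d ∈ Ws10 D t, pre Y d = 0) ∧ ∀ d ∈ Ws10 D (-t), pre Y d = 0 := by
    intro t c hc hc0 hk
    refine ⟨fun d hd => ?_, fun d hd => ?_⟩
    · obtain ⟨x, hx⟩ := o2_aux.line D (hp t) hc hc0 hd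
      rw [hx, map_smul, hk, smul_zero]
    · have hc' : c ∈ Ws10 D (-(-t)) := by rwa [neg_neg]
      exact o2_aux.L2 D hm (-t) (hp _) Y hC hS hZ hc' hc0 hk hd
  have z1 : b1 = 0 := by
    by_contra h
    obtain ⟨q1, q2⟩ := kill s b1 hb1 h k1
    exact hYa (o2_aux.L4 D hm s Y q1 q2 ha)
  have z2 : b2 = 0 := by
    by_contra h
    obtain ⟨q1, q2⟩ := kill (-s) b2 hb2 h k2
    rw [neg_neg] at q2
    exact hYa (o2_aux.L4 D hm s Y q2 q1 ha)
  refine LinearMap.ext fun v => ?_
  have h1 := hdec v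
  rw [z1, z2, LinearMap.zero_apply, map_zero, add_zero] at h1
  exact (mul_eq_zero.1 h1).resolve_left two_ne_zero


end SEO
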