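import Pool.Agent.Lib.SE.O.Spec
import Pool.Agent.Lib.SE.Q.GaH
import Pool.Agent.Lib.SE.Big.Bas
import Pool.Agent.Lib.SE.Big.Pj

/-!
# PROJECT SE-O, module o3: many eigenvalues
-/

set_option autoImplicit false

open Module

noncomputable section

namespace SEO

open HC HC.E HC.SE SEB SES SEU SEV

namespace o3_aux

variable {T : AV} {m : ℕ}

/-- The choice of the multiplier. -/
theorem choose_c {G : Type} [Fintype G] (lam β : G → ℂ)
    (h : ∀ s t, s ≠ t → lam s = lam t → β s ≠ β t) :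
    ∃ c : ℕ, Function.Injective fun s => (c : ℂ) * lam s + β s := by
  classical
  let F : Finset ℂ := Finset.univ.image fun p : G × G => (β p.2 - β p.1) / (lam p.1 - lam p.2)
  obtain ⟨c, hc⟩ := Infinite.exists_notMem_finset
    (F.preimage (fun n : ℕ => (n : ℂ)) (Nat.cast_injective.injOn))
  rw [Finset.mem_preimage] at hc
  refine ⟨c, fun s t hst => ?_⟩
  by_contra hne
  have h1 : (c : ℂ) * lam s + β s = (c : ℂ) * lam t + β t := hst
  by_cases hl : lam s = lam t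
  · rw [hl] at h1
    exact h s t hne hl (add_left_cancel h1)
  · refine hc (Finset.mem_image.2 ⟨(s, t), Finset.mem_univ _, ?_⟩)
    show (β t - β s) / (lam s - lam t) = (c : ℂ)
    rw [div_eq_iff (sub_ne_zero.2 hl)]
    linear_combination -h1

theorem zet_ne (t : (ZMod m)ˣ) : zet m t ≠ 0 := pow_ne_zero _ (Complex.exp_ne_zero _)

theorem zet_inj (hm : 3 ≤ m) (s t : (ZMod m)ˣ) (h : zet m s = zet m t) : s = t := by
  have hm0 : m ≠ 0 := by omega
  have : NeZero m := ⟨hm0⟩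
  have h1 := (Complex.isPrimitiveRoot_exp m hm0).pow_inj (ZMod.val_lt (s : ZMod m))
    (ZMod.val_lt (t : ZMod m)) h
  exact Units.ext (ZMod.val_injective m h1)

theorem zet_neg (hm : 3 ≤ m) (s : (ZMod m)ˣ) : zet m (-s) = (zet m s)⁻¹ := by
  have hm0 : m ≠ 0 := by omega
  have : NeZero m := ⟨hm0⟩
  have : Fact (1 < m) := ⟨by omega⟩
  have hs : (s : ZMod m) ≠ 0 := s.ne_zero
  have h1 : ((-s : (ZMod m)ˣ) : ZMod m).val = m - (s : ZMod m).val := by
    rw [Units.val_neg, ZMod.neg_val, if_neg hs]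
  have h2 : Complex.exp (2 * Real.pi * Complex.I / m) ^ m = 1 :=
    (Complex.isPrimitiveRoot_exp m hm0).pow_eq_one
  have h3 : (s : ZMod m).val ≤ m := (ZMod.val_lt _).le
  refine eq_inv_of_mul_eq_one_left ?_
  rw [zet, zet, h1, ← pow_add, Nat.sub_add_cancel h3, h2]

theorem neg_ne (hm : 3 ≤ m) (s : (ZMod m)ˣ) : s ≠ -s := by
  intro h
  have h1 : (s : ZMod m) = -(s : ZMod m) := by
    conv_lhs => rw [h]
    rw [Units.val_neg]
  have h2 : ((2 : ℕ) : ZMod m) = 0 := by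
    have h3 : ((2 : ℕ) : ZMod m) * (s : ZMod m) = 0 := by
      push_cast
      linear_combination h1
    have h4 := congrArg (· * ((s⁻¹ : (ZMod m)ˣ) : ZMod m)) h3
    simp only [zero_mul, mul_assoc, Units.mul_inv, mul_one] at h4
    exact h4
  rw [ZMod.natCast_eq_zero_iff] at h2
  have := Nat.le_of_dvd (by norm_num) h2
  omega

theorem lam_inj (hm : 3 ≤ m) (s t : (ZMod m)ˣ)
    (h : zet m s + (zet m s)⁻¹ = zet m t + (zet m t)⁻¹) : s = t ∨ s = -t := by
  have hx := zet_ne s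
  have hy := zet_ne t
  have h1 : (zet m s - zet m t) * (zet m s * zet m t - 1) = 0 := by
    have h2 : (zet m s + (zet m s)⁻¹) * (zet m s * zet m t) =
        (zet m t + (zet m t)⁻¹) * (zet m s * zet m t) := by rw [h]
    have h3 : (zet m s + (zet m s)⁻¹) * (zet m s * zet m t) =
        zet m s * zet m s * zet m t + zet m t := by
      field_simp
    have h4 : (zet m t + (zet m t)⁻¹) * (zet m s * zet m t) =
        zet m t * zet m t * zet m s + zet m s := by
      field_simp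
    rw [h3, h4] at h2
    linear_combination h2
  rcases mul_eq_zero.1 h1 with h5 | h5
  · exact Or.inl (zet_inj hm _ _ (sub_eq_zero.1 h5))
  · right
    refine zet_inj hm _ _ ?_
    rw [zet_neg hm]
    exact eq_inv_of_mul_eq_one_left (sub_eq_zero.1 h5)

/-- `Y` maps the eigenspace of `s` to the eigenspace of `-s`. -/
theorem Y_map (hm : 3 ≤ m) (D : Cyc T m) (Y : Module.End ℝ T.V)
    (hY : ∀ v, D.Z (Y (D.Z v)) = Y v) (s : (ZMod m)ˣ) (a : Frm T) (ha : a ∈ Ws D s) :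
    pre Y a ∈ Ws D (-s) := by
  intro v
  show a (Y (D.Z v)) = zet m (-s) * a (Y v)
  rw [zet_neg hm, ← hY v, ha, inv_mul_cancel_left₀ (zet_ne s)]

/-- A generator of the `(1,0)` part. -/
theorem gen (D : Cyc T m) (s : (ZMod m)ˣ) (h : D.p s = 1) :
    ∃ a ∈ Ws10 D s, a ≠ 0 ∧ ∀ b ∈ Ws10 D s, ∃ c : ℂ, b = c • a := by
  obtain ⟨v, hv, hw⟩ := finrank_eq_one_iff'.1 h
  refine ⟨v, v.2, fun h0 => hv (Subtype.ext h0), fun b hb => ?_⟩
  obtain ⟨c, hc⟩ := hw ⟨b, hb⟩
  exact ⟨c, (congrArg Subtype.val hc).symm⟩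

theorem Y_ne (hm : 3 ≤ m) (D : Cyc T m) (Y : Module.End ℝ T.V) (hr : RatEnd T Y)
    (hY : ∀ v, D.Z (Y (D.Z v)) = Y v) (hY0 : Y ≠ 0) (s : (ZMod m)ˣ) :
    ∃ a ∈ Ws D s, pre Y a ≠ 0 := by
  obtain ⟨hsup, -, -, hpre, -⟩ := tBas tPj T m D hm
  obtain ⟨-, -, hp2, -⟩ := tPj T m D hm
  by_contra hcon
  push Not at hcon
  refine hY0 ?_
  refine (hpre Y 0).2.2.2 ?_
  have h1 : (⊤ : Submodule ℂ (Frm T)) ≤ LinearMap.ker (pre Y) := by
    rw [← hsup]
    refine iSup_le fun t a ha => ?_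
    rw [LinearMap.mem_ker]
    have h2 := SEQ.tGaH T T m m D D hm hm m dvd_rfl dvd_rfl (by omega) Y hr s (-s) (t * s⁻¹)
      (fun b hb => by
        have h3 : SEQ.preH Y b = 0 := hcon b hb
        rw [h3, map_zero])
    have h3 : SEQ.rho (dvd_refl m) (t * s⁻¹) s = t := by
      rw [SEQ.rho, ZMod.unitsMap_self, MonoidHom.id_apply, inv_mul_cancel_right]
    have h4 : SEQ.rho (dvd_refl m) (t * s⁻¹) (-s) = -t := by
      rw [SEQ.rho, ZMod.unitsMap_self, MonoidHom.id_apply, mul_neg, inv_mul_cancel_right]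
    rw [h3, h4] at h2
    have h5 := h2 a ha
    have h6 : SEQ.preH Y a = pre Y a := rfl
    rw [h6, hp2 _ _ (Y_map hm D Y hY t a ha)] at h5
    exact h5
  refine LinearMap.ext fun a => ?_
  have h2 := LinearMap.mem_ker.1 (h1 (Submodule.mem_top (x := a)))
  rw [h2]
  exact (LinearMap.comp_zero a).symm

/-- The inverse of `Z`. -/
def W (D : Cyc T m) : T.V →ₗ[ℂ] T.V := D.Z ^ (m - 1)

theorem ZW (hm : 3 ≤ m) (D : Cyc T m) (v : T.V) : D.Z (W D v) = v := by
  have h1 : D.Z * W D = 1 := by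
    rw [W, ← pow_succ', Nat.sub_add_cancel (by omega)]
    exact (tPj T m D hm).1
  exact LinearMap.congr_fun h1 v

theorem WZ (hm : 3 ≤ m) (D : Cyc T m) (v : T.V) : W D (D.Z v) = v := by
  have h1 : W D * D.Z = 1 := by
    rw [W, ← pow_succ, Nat.sub_add_cancel (by omega)]
    exact (tPj T m D hm).1
  exact LinearMap.congr_fun h1 v

theorem W_lat (D : Cyc T m) (v : T.V) (hv : v ∈ T.L) : W D v ∈ T.L := by
  unfold W
  induction m - 1 with
  | zero => exact hv
  | succ n ih =>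
    rw [pow_succ', Module.End.mul_apply]
    exact D.lat _ ih

/-- The endomorphism `c (Z + Z⁻¹) + Y`. -/
def Xc (D : Cyc T m) (Y : Module.End ℝ T.V) (c : ℕ) : Module.End ℝ T.V :=
  c • (D.Z.restrictScalars ℝ + (W D).restrictScalars ℝ) + Y

theorem Xc_apply (D : Cyc T m) (Y : Module.End ℝ T.V) (c : ℕ) (v : T.V) :
    Xc D Y c v = c • (D.Z v + W D v) + Y v := rfl

theorem Xc_rat (D : Cyc T m) (Y : Module.End ℝ T.V) (hr : RatEnd T Y) (c : ℕ) :
    RatEnd T (Xc D Y c) := by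
  intro v hv
  obtain ⟨N, hN, h1⟩ := hr v hv
  refine ⟨N, hN, ?_⟩
  rw [Xc_apply, smul_add]
  exact add_mem (nsmul_mem (nsmul_mem (add_mem (D.lat v hv) (W_lat D v hv)) c) N) h1

theorem Xc_cx (D : Cyc T m) (Y : Module.End ℝ T.V) (hC : Cx Y) (c : ℕ) : Cx (Xc D Y c) := by
  intro v
  rw [Xc_apply, Xc_apply, hC v, map_smul, map_smul, ← smul_add,
    smul_add Complex.I (c • (D.Z v + W D v)), smul_comm Complex.I c]

theorem Xc_sy (hm : 3 ≤ m) (D : Cyc T m) (Y : Module.End ℝ T.V) (hS : Sy D.ψ Y) (c : ℕ) :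
    Sy D.ψ (Xc D Y c) := by
  intro u v
  have h1 : D.ψ (D.Z u) v = D.ψ u (W D v) := by
    conv_lhs => rw [← ZW hm D v]
    exact D.inv u (W D v)
  have h2 : D.ψ (W D u) v = D.ψ u (D.Z v) := by
    rw [← D.inv (W D u) v, ZW hm D u]
  rw [Xc_apply, Xc_apply, map_add, map_add, map_nsmul, map_nsmul, map_add, map_add,
    LinearMap.add_apply, LinearMap.smul_apply, LinearMap.add_apply, h1, h2, hS u v,
    add_comm (D.ψ u (W D v))]

theorem Xc_pre (hm : 3 ≤ m) (D : Cyc T m) (Y : Module.End ℝ T.V) (c : ℕ) (s : (ZMod m)ˣ)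
    (a : Frm T) (ha : a ∈ Ws D s) :
    pre (Xc D Y c) a = ((c : ℂ) * (zet m s + (zet m s)⁻¹)) • a + pre Y a := by
  refine LinearMap.ext fun v => ?_
  show a (Xc D Y c v) = ((c : ℂ) * (zet m s + (zet m s)⁻¹)) * a v + a (Y v)
  have h1 : a (W D v) = (zet m s)⁻¹ * a v := by
    have h2 := ha (W D v)
    rw [ZW hm D v] at h2
    rw [h2, inv_mul_cancel_left₀ (zet_ne s)]
  rw [Xc_apply, map_add, map_nsmul, map_add, ha v, h1, nsmul_eq_mul]
  ring

end o3_aux

open o3_aux in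
theorem to3 : S_o1 → S_o2 → S_o3 := by
  classical
  intro ho1 ho2 T m D hm hd hp
  have hm0 : m ≠ 0 := by omega
  have : NeZero m := ⟨hm0⟩
  obtain ⟨Y, hYr, hYs, hYz, hY0⟩ := ho1 T m D hm hd
  obtain ⟨hYc, hYi⟩ := ho2 T m D hm hd hp Y hYs hYz
  obtain ⟨-, -, hp2, hp3⟩ := tPj T m D hm
  choose a ha10 ha0 hagen using fun s => gen D s (hp s)
  have hY10 : ∀ s, pre Y (a s) ∈ Ws10 D (-s) := by
    intro s
    refine ⟨Y_map hm D Y hYz s (a s) (ha10 s).1, fun v => ?_⟩
    show a s (Y (Complex.I • v)) = Complex.I * a s (Y v)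
    rw [hYc v]
    exact (ha10 s).2 (Y v)
  choose α hα using fun s => hagen (-s) (pre Y (a s)) (hY10 s)
  have hα0 : ∀ s, α s ≠ 0 := by
    intro s h0
    have h1 := hα s
    rw [h0, zero_smul] at h1
    exact ha0 s (hYi s (Y_ne hm D Y hYr hYz hY0 s) (a s) (ha10 s).1 h1)
  choose sq hsq using fun z : ℂ => IsAlgClosed.exists_pow_nat_eq z (n := 2) (by norm_num)
  let β : (ZMod m)ˣ → ℂ := fun s =>
    if (s : ZMod m).val < ((-s : (ZMod m)ˣ) : ZMod m).val then sq (α s * α (-s))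
    else -sq (α s * α (-s))
  have hβ2 : ∀ s, β s * β s = α s * α (-s) := by
    intro s
    show (if (s : ZMod m).val < ((-s : (ZMod m)ˣ) : ZMod m).val then sq (α s * α (-s))
      else -sq (α s * α (-s))) * (if (s : ZMod m).val < ((-s : (ZMod m)ˣ) : ZMod m).val then
      sq (α s * α (-s)) else -sq (α s * α (-s))) = _
    have h1 := hsq (α s * α (-s))
    rw [pow_two] at h1
    split_ifs
    · exact h1
    · rw [neg_mul_neg]
      exact h1
  have hβneg : ∀ s, β (-s) = -β s := by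
    intro s
    have hne : (s : ZMod m).val ≠ ((-s : (ZMod m)ˣ) : ZMod m).val := by
      intro h
      exact neg_ne hm s (Units.ext (ZMod.val_injective m h))
    show (if ((-s : (ZMod m)ˣ) : ZMod m).val < ((- -s : (ZMod m)ˣ) : ZMod m).val then
        sq (α (-s) * α (- -s)) else -sq (α (-s) * α (- -s))) =
      -(if (s : ZMod m).val < ((-s : (ZMod m)ˣ) : ZMod m).val then sq (α s * α (-s))
        else -sq (α s * α (-s)))
    rw [neg_neg, mul_comm (α (-s)) (α s)]
    by_cases h1 : (s : ZMod m).val < ((-s : (ZMod m)ˣ) : ZMod m).val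
    · rw [if_pos h1, if_neg (not_lt.2 h1.le)]
    · have h2 : ((-s : (ZMod m)ˣ) : ZMod m).val < (s : ZMod m).val :=
        lt_of_le_of_ne (not_lt.1 h1) (Ne.symm hne)
      rw [if_neg h1, if_pos h2, neg_neg]
  have hβ0 : ∀ s, β s ≠ 0 := by
    intro s h0
    have h1 := hβ2 s
    rw [h0, zero_mul] at h1
    exact mul_ne_zero (hα0 s) (hα0 (-s)) h1.symm
  obtain ⟨c, hc⟩ := choose_c (fun s : (ZMod m)ˣ => zet m s + (zet m s)⁻¹) β (by
    intro s t hst hl hb
    rcases lam_inj hm s t hl with h1 | h1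
    · exact hst h1
    · rw [h1, hβneg] at hb
      have h2 : (2 : ℂ) * β t = 0 := by linear_combination -hb
      rcases mul_eq_zero.1 h2 with h3 | h3
      · norm_num at h3
      · exact hβ0 t h3)
  refine ⟨Xc D Y c, Xc_rat D Y hYr c, Xc_cx D Y hYc c, Xc_sy hm D Y hYs c,
    Finset.univ.image fun s : (ZMod m)ˣ => (c : ℂ) * (zet m s + (zet m s)⁻¹) + β s, ?_, ?_⟩
  · rw [Finset.card_image_of_injective _ hc, Finset.card_univ, ZMod.card_units_eq_totient, hd]
  · intro l hl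
    obtain ⟨s, -, rfl⟩ := Finset.mem_image.1 hl
    refine ⟨α (-s) • a s + β s • a (-s), ?_, ?_⟩
    · intro h0
      have h1 := congrArg (pj D s) h0
      rw [map_add, map_smul, map_smul, map_zero, hp2 s _ (ha10 s).1,
        hp3 (-s) s (Ne.symm (neg_ne hm s)) _ (ha10 (-s)).1, smul_zero, add_zero] at h1
      rcases smul_eq_zero.1 h1 with h2 | h2
      · exact hα0 (-s) h2
      · exact ha0 s h2
    · have h1 := Xc_pre hm D Y c s (a s) (ha10 s).1
      have h2 := Xc_pre hm D Y c (-s) (a (-s)) (ha10 (-s)).1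
      rw [hα s] at h1
      rw [hα (-s), neg_neg, zet_neg hm, inv_inv, add_comm (zet m s)⁻¹] at h2
      rw [map_add, map_smul, map_smul, h1, h2]
      have h3 := hβ2 s
      refine LinearMap.ext fun v => ?_
      simp only [LinearMap.add_apply, LinearMap.smul_apply, smul_eq_mul]
      linear_combination (-(a (-s) v)) * h3

end SEO
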