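import Pool.Agent.Lib.SE.O.Spec
import Pool.Agent.Lib.SE.V.vE

/-!
# PROJECT SE-O, module o4: the degree of the minimal polynomial
-/

set_option autoImplicit false

open Module

noncomputable section

namespace SEO

open HC HC.E HC.SE SEB SES SEU SEV

namespace o4_aux

/-- `a ∘ p(X) = p(l) a`. -/
theorem key {T : AV} {X : Module.End ℝ T.V} {a : Frm T} {l : ℂ} (ha : pre X a = l • a)
    (p : Polynomial ℝ) : ∀ v : T.V, a ((Polynomial.aeval X p) v) = Polynomial.aeval l p * a v := by
  have hX : ∀ v, a (X v) = l * a v := fun v => by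
    have h := LinearMap.congr_fun ha v
    exact h
  induction p using Polynomial.induction_on with
  | C r =>
    intro v
    rw [Polynomial.aeval_C, Polynomial.aeval_C, Module.algebraMap_end_apply, map_smul,
      Complex.real_smul]
    rfl
  | add p q hp hq =>
    intro v
    rw [map_add, LinearMap.add_apply, map_add, hp, hq, map_add, add_mul]
  | monomial n r ih =>
    intro v
    have h1 : Polynomial.aeval l (Polynomial.C r * Polynomial.X ^ n * Polynomial.X) =
        Polynomial.aeval l (Polynomial.C r * Polynomial.X ^ n) * l := by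
      rw [map_mul, Polynomial.aeval_X]
    rw [pow_succ, ← mul_assoc, map_mul, Polynomial.aeval_X, Module.End.mul_apply, ih, hX, h1,
      mul_assoc]

end o4_aux

open o4_aux in
/-- **o4**: THE DEGREE. -/
theorem to4 : S_o4 := by
  intro T E hE X hC hS Λ hΛ hev
  classical
  obtain ⟨s, hs1, hs2⟩ := SEV.tvE T E hE X hC hS
  refine ⟨s, le_antisymm hs1 ?_, hs2⟩
  have hsub : Λ ⊆ s.image (fun a : ℝ => (a : ℂ)) := by
    intro l hl
    obtain ⟨a, ha0, ha⟩ := hev l hl
    obtain ⟨v, hv⟩ : ∃ v, a v ≠ 0 := by
      by_contra hcon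
      push Not at hcon
      exact ha0 (LinearMap.ext hcon)
    have h0 := key ha (minpoly ℝ X) v
    rw [minpoly.aeval, LinearMap.zero_apply, map_zero] at h0
    have h1 : Polynomial.aeval l (minpoly ℝ X) = 0 :=
      (mul_eq_zero.mp h0.symm).resolve_right hv
    rw [hs2, map_prod, Finset.prod_eq_zero_iff] at h1
    obtain ⟨r, hr, hr0⟩ := h1
    rw [map_sub, Polynomial.aeval_X, Polynomial.aeval_C, sub_eq_zero] at hr0
    exact Finset.mem_image.mpr ⟨r, hr, hr0.symm⟩
  rw [← hΛ]
  exact (Finset.card_le_card hsub).trans Finset.card_image_le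

end SEO
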