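import Pool.Agent.Lib.SE.O.Spec
import Pool.Agent.Lib.SE.V.vE
import Pool.Agent.Lib.SE.V.vF
import Pool.Agent.Lib.SE.V.vS

/-!
# PROJECT SE-O, module o5: splitting with a symmetric element (helper92)
-/

set_option autoImplicit false

open Module

noncomputable section

namespace SEO

open HC HC.E HC.SE SEB SES SEU SEV

namespace o5_aux

variable {T : AV}

open Polynomial in
/-- A rational projection which is a polynomial in `X`. -/
theorem proj (X : Module.End ℝ T.V) (hr : RatEnd T X) (hC : Cx X) (s : Finset ℝ)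
    (f : Polynomial ℚ) (hm : minpoly ℝ X = ∏ a ∈ s, (Polynomial.X - Polynomial.C a))
    (hmon : f.Monic) (hf : minpoly ℝ X = f.map (algebraMap ℚ ℝ)) (hirr : ¬ Irreducible f)
    (hpos : 0 < finrank ℂ T.V) :
    ∃ P : Module.End ℝ T.V, RatEnd T P ∧ Cx P ∧ P * P = P ∧ P ≠ 0 ∧ P ≠ 1 ∧ P * X = X * P := by
  have hm0 : aeval X (minpoly ℝ X) = 0 := minpoly.aeval ℝ X
  have hsep : f.Separable := by
    rw [← Polynomial.separable_map (algebraMap ℚ ℝ), ← hf, hm]
    exact Polynomial.separable_prod_X_sub_C_iff'.mpr (fun x _ y _ h => h)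
  have hunit : ¬ IsUnit f := by
    intro hu
    have h1 : f = 1 := hmon.isUnit_iff.mp hu
    rw [hf, h1, Polynomial.map_one, map_one] at hm0
    obtain ⟨v, hv⟩ := finrank_pos_iff_exists_ne_zero.1 hpos
    exact hv (congrArg (fun g : Module.End ℝ T.V => g v) hm0)
  rw [irreducible_iff] at hirr
  push Not at hirr
  obtain ⟨g, h, hgh, hg, hh⟩ := hirr hunit
  have hcop : IsCoprime g h := by
    rw [hgh] at hsep
    exact hsep.isCoprime
  obtain ⟨a, b, hab⟩ := hcop
  set φ : ℚ[X] →+* Module.End ℝ T.V :=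
    (aeval X : ℝ[X] →ₐ[ℝ] Module.End ℝ T.V).toRingHom.comp (mapRingHom (algebraMap ℚ ℝ)) with hφ
  have hφa : ∀ p : ℚ[X], φ p = aeval X (p.map (algebraMap ℚ ℝ)) := fun p => rfl
  have hφf : φ f = 0 := by rw [hφa, ← hf, hm0]
  have hφX : φ Polynomial.X = X := by rw [hφa, Polynomial.map_X, aeval_X]
  have hdvd : ∀ p : ℚ[X], φ p = 0 → f ∣ p := by
    intro p hp
    rw [hφa] at hp
    have h1 : minpoly ℝ X ∣ p.map (algebraMap ℚ ℝ) := minpoly.dvd ℝ X hp
    rw [hf] at h1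
    exact (Polynomial.map_dvd_map' (algebraMap ℚ ℝ)).mp h1
  have hsum : φ (a * g) + φ (b * h) = 1 := by rw [← map_add, hab, map_one]
  have hprod : φ (a * g) * φ (b * h) = 0 := by
    rw [← map_mul, show a * g * (b * h) = a * b * f from by rw [hgh]; ring, map_mul, hφf, mul_zero]
  refine ⟨φ (a * g), vF_aux.rat_pol hr _, vF_aux.cx_pol hC _, ?_, ?_, ?_, ?_⟩
  · have h1 : φ (b * h) = 1 - φ (a * g) := by rw [← hsum]; abel
    rw [h1, mul_sub, mul_one] at hprod
    exact (sub_eq_zero.mp hprod).symm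
  · intro h0
    have h1 : f ∣ a * g := hdvd _ h0
    have h2 : h ∣ a * g := (Dvd.intro_left g hgh.symm).trans h1
    have h3 : h ∣ 1 := by
      rw [← hab]
      exact dvd_add h2 (Dvd.intro_left b rfl)
    exact hh (isUnit_of_dvd_one h3)
  · intro h0
    have h1 : φ (b * h) = 0 := by
      have h2 : φ (b * h) = 1 - φ (a * g) := by rw [← hsum]; abel
      rw [h2, h0, sub_self]
    have h2 : f ∣ b * h := hdvd _ h1
    have h3 : g ∣ b * h := (Dvd.intro h hgh.symm).trans h2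
    have h4 : g ∣ 1 := by
      rw [← hab]
      exact dvd_add (Dvd.intro_left a rfl) h3
    exact hg (isUnit_of_dvd_one h4)
  · have h1 : φ (a * g * Polynomial.X) = φ (Polynomial.X * (a * g)) := by rw [mul_comm]
    rw [map_mul, map_mul _ Polynomial.X, hφX] at h1
    exact h1

/-- Splitting by a rational projection, with the isomorphisms. -/
theorem split (P : T.V →ₗ[ℂ] T.V) (hPP : ∀ v, P (P v) = P v) (h0 : ∃ v, P v ≠ 0)
    (h1 : ∃ v, P v ≠ v) (hr : ∀ v ∈ T.L, ∃ N : ℕ, N ≠ 0 ∧ N • P v ∈ T.L) :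
    ∃ (A B : AV) (eA : A.V ≃ₗ[ℂ] LinearMap.range P) (eB : B.V ≃ₗ[ℂ] LinearMap.ker P),
      (∀ x, x ∈ A.L ↔ ((eA x : LinearMap.range P) : T.V) ∈ T.L) ∧
      (∀ x, x ∈ B.L ↔ ((eB x : LinearMap.ker P) : T.V) ∈ T.L) ∧
      0 < finrank ℂ A.V ∧ 0 < finrank ℂ B.V ∧
      finrank ℂ A.V + finrank ℂ B.V = finrank ℂ T.V ∧ IsProd T A B := by
  have hP : ∀ v, P v ∈ LinearMap.range P := fun v => ⟨v, rfl⟩
  have hPr : ∀ v ∈ LinearMap.range P, P v = v := by
    rintro _ ⟨v, rfl⟩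
    exact hPP v
  have hk : ∀ v, v - P v ∈ LinearMap.ker P := by
    intro v
    rw [LinearMap.mem_ker, map_sub, hPP, sub_self]
  have hf1 : 0 < finrank ℂ (LinearMap.range P) := by
    obtain ⟨v, hv⟩ := h0
    rw [finrank_pos_iff_exists_ne_zero]
    exact ⟨⟨P v, v, rfl⟩, fun h => hv (congrArg Subtype.val h)⟩
  have hf2 : 0 < finrank ℂ (LinearMap.ker P) := by
    obtain ⟨v, hv⟩ := h1
    rw [finrank_pos_iff_exists_ne_zero]
    exact ⟨⟨v - P v, hk v⟩, fun h => hv (sub_eq_zero.1 (congrArg Subtype.val h)).symm⟩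
  have hf3 := LinearMap.finrank_range_add_finrank_ker P
  have hc : IsCompl (LinearMap.range P) (LinearMap.ker P) := by
    refine IsCompl.of_eq ?_ ?_
    · rw [eq_bot_iff]
      rintro v ⟨hv1, hv2⟩
      have h3 := hPr v hv1
      have h4 : P v = 0 := hv2
      rw [Submodule.mem_bot, ← h3, h4]
    · rw [eq_top_iff]
      rintro v -
      have h3 : v = P v + (v - P v) := by abel
      rw [h3]
      exact Submodule.add_mem_sup (hP v) (hk v)
  obtain ⟨A, eA, hA⟩ := uS_aux.ex_sub (LinearMap.range P)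
    (uS_aux.span_lat P _ hP hPr hr)
  have hr2 : ∀ v ∈ T.L, ∃ N : ℕ, N ≠ 0 ∧ N • ((LinearMap.id : T.V →ₗ[ℂ] T.V) - P) v ∈ T.L := by
    intro v hv
    obtain ⟨N, hN, h⟩ := hr v hv
    refine ⟨N, hN, ?_⟩
    rw [LinearMap.sub_apply, LinearMap.id_apply, smul_sub]
    exact T.L.sub_mem (T.L.toAddSubgroup.nsmul_mem hv N) h
  obtain ⟨B, eB, hB⟩ := uS_aux.ex_sub (LinearMap.ker P)
    (uS_aux.span_lat ((LinearMap.id : T.V →ₗ[ℂ] T.V) - P) _ hk (by
      intro v hv
      have h4 : P v = 0 := hv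
      rw [LinearMap.sub_apply, LinearMap.id_apply, h4, sub_zero]) hr2)
  refine ⟨A, B, eA, eB, hA, hB, by rw [eA.finrank_eq]; exact hf1, by rw [eB.finrank_eq]; exact hf2,
    by rw [eA.finrank_eq, eB.finrank_eq]; exact hf3,
    (Submodule.prodEquivOfIsCompl _ _ hc).symm.trans (LinearEquiv.prodCongr eA.symm eB.symm), ?_⟩
  intro v hv
  obtain ⟨N, hN, h⟩ := hr v hv
  have hdec : (Submodule.prodEquivOfIsCompl _ _ hc).symm v = (⟨P v, hP v⟩, ⟨v - P v, hk v⟩) := by
    rw [LinearEquiv.symm_apply_eq, Submodule.coe_prodEquivOfIsCompl']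
    exact (add_sub_cancel _ _).symm
  refine ⟨N, hN, ?_, ?_⟩
  · rw [hA, map_nsmul]
    change ((N • eA (eA.symm ((Submodule.prodEquivOfIsCompl _ _ hc).symm v).1) :
      LinearMap.range P) : T.V) ∈ T.L
    rw [hdec, LinearEquiv.apply_symm_apply]
    exact h
  · rw [hB, map_nsmul]
    change ((N • eB (eB.symm ((Submodule.prodEquivOfIsCompl _ _ hc).symm v).2) :
      LinearMap.ker P) : T.V) ∈ T.L
    rw [hdec, LinearEquiv.apply_symm_apply]
    change N • (v - P v) ∈ T.L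
    rw [smul_sub]
    exact T.L.sub_mem (T.L.toAddSubgroup.nsmul_mem hv N) h

/-- Restriction to a stable subspace. -/
theorem res {E : T.V →ₗ[ℝ] T.V →ₗ[ℝ] ℝ} (hE : IsRf T E) (X : Module.End ℝ T.V)
    (Xc : T.V →ₗ[ℂ] T.V) (hXc : ∀ v, Xc v = X v) (hr : RatEnd T X) (hS : Sy E X)
    (W : Submodule ℂ T.V) (hW : ∀ v ∈ W, Xc v ∈ W) (A : AV) (e : A.V ≃ₗ[ℂ] W)
    (hA : ∀ x : A.V, x ∈ A.L ↔ ((e x : W) : T.V) ∈ T.L) :
    ∃ (E' : A.V →ₗ[ℝ] A.V →ₗ[ℝ] ℝ) (X' : Module.End ℝ A.V) (s : Finset ℝ), IsRf A E' ∧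
      RatEnd A X' ∧ Cx X' ∧ Sy E' X' ∧ s.card ≤ finrank ℂ A.V ∧
      minpoly ℝ X' = ∏ a ∈ s, (Polynomial.X - Polynomial.C a) ∧
      ∀ x, X ((e x : W) : T.V) = ((e (X' x) : W) : T.V) := by
  let j : A.V →ₗ[ℂ] T.V := W.subtype ∘ₗ e.toLinearMap
  have hj : ∀ x, j x = ((e x : W) : T.V) := fun x => rfl
  let f : A.V →ₗ[ℝ] T.V := j.restrictScalars ℝ
  have hf : ∀ x, f x = ((e x : W) : T.V) := fun x => rfl
  let Y : A.V →ₗ[ℂ] A.V := e.symm.toLinearMap ∘ₗ (Xc.restrict hW) ∘ₗ e.toLinearMap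
  have hY : ∀ x, ((e (Y x) : W) : T.V) = X ((e x : W) : T.V) := by
    intro x
    have h1 : e (Y x) = Xc.restrict hW (e x) := e.apply_symm_apply _
    rw [h1, LinearMap.coe_restrict_apply, hXc]
  let X' : Module.End ℝ A.V := Y.restrictScalars ℝ
  have hX' : ∀ x, X' x = Y x := fun x => rfl
  have hE' : IsRf A (E.compl₁₂ f f) := by
    refine ⟨?_, ?_, ?_, ?_⟩
    · intro u hu v hv
      exact hE.1 _ ((hA u).1 hu) _ ((hA v).1 hv)
    · intro u v
      exact hE.2.1 _ _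
    · intro u v
      have h1 := hE.2.2.1 (f u) (f v)
      have h2 : ∀ w : A.V, f (Complex.I • w) = Complex.I • f w := fun w => map_smul j _ _
      rw [← h2, ← h2] at h1
      exact h1
    · intro v hv
      have h2 : f (Complex.I • v) = Complex.I • f v := map_smul j _ _
      have h3 : f v ≠ 0 := by
        intro h4
        apply hv
        have h5 : e v = 0 := Subtype.ext h4
        exact (map_eq_zero_iff e e.injective).1 h5
      have h4 := hE.2.2.2 _ h3
      rw [← h2] at h4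
      exact h4
  have hr' : RatEnd A X' := by
    intro v hv
    obtain ⟨N, hN, h⟩ := hr _ ((hA v).1 hv)
    refine ⟨N, hN, ?_⟩
    rw [hA, map_nsmul]
    change N • ((e (Y v) : W) : T.V) ∈ T.L
    rw [hY]
    exact h
  have hC' : Cx X' := fun v => map_smul Y _ _
  have hS' : Sy (E.compl₁₂ f f) X' := by
    intro u v
    have h1 := hS (f u) (f v)
    have h2 : ∀ w, f (X' w) = X (f w) := hY
    rw [← h2, ← h2] at h1
    exact h1
  obtain ⟨s, hs, hm⟩ := tvE A (E.compl₁₂ f f) hE' X' hC' hS'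
  exact ⟨E.compl₁₂ f f, X', s, hE', hr', hC', hS', hs, hm, fun x => (hY x).symm⟩

open Polynomial in
theorem inter (X : Module.End ℝ T.V) (W : Submodule ℂ T.V) (A : AV) (e : A.V ≃ₗ[ℂ] W)
    (X' : Module.End ℝ A.V) (h : ∀ x, X ((e x : W) : T.V) = ((e (X' x) : W) : T.V))
    (p : ℝ[X]) : ∀ x, aeval X p ((e x : W) : T.V) = ((e (aeval X' p x) : W) : T.V) := by
  have hp : ∀ n : ℕ, ∀ x, (X ^ n) ((e x : W) : T.V) = ((e ((X' ^ n) x) : W) : T.V) := by
    intro n
    induction n with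
    | zero => intro x; rfl
    | succ n ih =>
      intro x
      rw [pow_succ, pow_succ, Module.End.mul_apply, Module.End.mul_apply, h, ih]
  induction p using Polynomial.induction_on' with
  | add f g hf hg =>
    intro x
    rw [map_add, map_add, LinearMap.add_apply, LinearMap.add_apply, hf, hg, map_add]
    rfl
  | monomial n a =>
    intro x
    rw [aeval_monomial, aeval_monomial, Module.End.mul_apply, Module.End.mul_apply,
      Module.algebraMap_end_apply, Module.algebraMap_end_apply, hp]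
    have h1 : e (a • (X' ^ n) x) = a • e ((X' ^ n) x) := by
      rw [← Complex.coe_smul, map_smul, Complex.coe_smul]
    rw [h1]
    rfl

end o5_aux

open Polynomial in
theorem to5 : S_o5 := by
  intro T E X s f hE hr hC hS hcard hm hmon hf hirr hpos
  obtain ⟨P, hPr, hPc, hPP, hP0, hP1, hPX⟩ := o5_aux.proj X hr hC s f hm hmon hf hirr hpos
  obtain ⟨Q, hQ⟩ := uS_aux.cx_lin P hPc
  obtain ⟨Xc, hXc⟩ := uS_aux.cx_lin X hC
  have hcomm : ∀ v, Q (Xc v) = Xc (Q v) := by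
    intro v
    rw [hXc, hQ, hQ, hXc]
    exact congrArg (fun g : Module.End ℝ T.V => g v) hPX
  have hQQ : ∀ v, Q (Q v) = Q v := by
    intro v
    rw [hQ, hQ]
    exact congrArg (fun f : Module.End ℝ T.V => f v) hPP
  obtain ⟨A, B, eA, eB, hA, hB, hpA, hpB, hsum, hprod⟩ := o5_aux.split Q hQQ
    (by
      by_contra hcon
      push Not at hcon
      refine hP0 (LinearMap.ext fun v => ?_)
      rw [← hQ, hcon]
      rfl)
    (by
      by_contra hcon
      push Not at hcon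
      refine hP1 (LinearMap.ext fun v => ?_)
      rw [← hQ, hcon]
      rfl)
    (by
      intro v hv
      obtain ⟨N, hN, h⟩ := hPr v hv
      exact ⟨N, hN, by rw [hQ]; exact h⟩)
  have hWA : ∀ v ∈ LinearMap.range Q, Xc v ∈ LinearMap.range Q := by
    rintro _ ⟨v, rfl⟩
    exact ⟨Xc v, hcomm v⟩
  have hWB : ∀ v ∈ LinearMap.ker Q, Xc v ∈ LinearMap.ker Q := by
    intro v hv
    rw [LinearMap.mem_ker, hcomm, LinearMap.mem_ker.1 hv, map_zero]
  obtain ⟨EA, XA, sA, hEA, hrA, hCA, hSA, hcA, hmA, hiA⟩ :=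
    o5_aux.res hE X Xc hXc hr hS (LinearMap.range Q) hWA A eA hA
  obtain ⟨EB, XB, sB, hEB, hrB, hCB, hSB, hcB, hmB, hiB⟩ :=
    o5_aux.res hE X Xc hXc hr hS (LinearMap.ker Q) hWB B eB hB
  have hkey : aeval X (minpoly ℝ XA * minpoly ℝ XB) = 0 := by
    apply LinearMap.ext
    intro v
    have h1 : v = ((eA (eA.symm ⟨Q v, v, rfl⟩) : LinearMap.range Q) : T.V) +
        ((eB (eB.symm ⟨v - Q v, by rw [LinearMap.mem_ker, map_sub, hQQ, sub_self]⟩) :
          LinearMap.ker Q) : T.V) := by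
      rw [LinearEquiv.apply_symm_apply, LinearEquiv.apply_symm_apply]
      exact (add_sub_cancel _ _).symm
    rw [h1, map_add]
    have h2 := o5_aux.inter X _ A eA XA hiA (minpoly ℝ XA * minpoly ℝ XB)
      (eA.symm ⟨Q v, v, rfl⟩)
    have h3 := o5_aux.inter X _ B eB XB hiB (minpoly ℝ XA * minpoly ℝ XB)
      (eB.symm ⟨v - Q v, by rw [LinearMap.mem_ker, map_sub, hQQ, sub_self]⟩)
    rw [h2, h3, map_mul, map_mul, minpoly.aeval, minpoly.aeval, zero_mul, mul_zero]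
    simp
  have hdv : minpoly ℝ X ∣ minpoly ℝ XA * minpoly ℝ XB := minpoly.dvd ℝ X hkey
  have hdeg : ∀ t : Finset ℝ, (∏ a ∈ t, (Polynomial.X - Polynomial.C a)).natDegree = t.card := by
    intro t
    rw [Polynomial.natDegree_prod_of_monic _ _ fun a _ => Polynomial.monic_X_sub_C a]
    simp
  have hmon2 : ∀ t : Finset ℝ, (∏ a ∈ t, (Polynomial.X - Polynomial.C a)).Monic := fun t =>
    Polynomial.monic_prod_of_monic _ _ fun a _ => Polynomial.monic_X_sub_C a
  have hle : s.card ≤ sA.card + sB.card := by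
    rw [hm, hmA, hmB] at hdv
    have h1 := Polynomial.natDegree_le_of_dvd hdv
      ((hmon2 sA).mul (hmon2 sB)).ne_zero
    rwa [(hmon2 sA).natDegree_mul (hmon2 sB), hdeg, hdeg, hdeg] at h1
  exact ⟨A, B, hpA, hpB, hsum, hprod,
    ⟨EA, XA, sA, hEA, hrA, hCA, hSA, by omega, hmA⟩,
    ⟨EB, XB, sB, hEB, hrB, hCB, hSB, by omega, hmB⟩⟩

end SEO
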