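import Pool.Agent.Lib.SE.O.Fin
import Pool.Agent.Lib.SE.O.o1
import Pool.Agent.Lib.SE.O.o2
import Pool.Agent.Lib.SE.O.o3
import Pool.Agent.Lib.SE.O.o4
import Pool.Agent.Lib.SE.O.o5
import Pool.Agent.Lib.SE.K.Main
import Pool.Agent.Lib.SE.V.Main

/-!
# PROJECT SE-O: the modules and the result (helper64)
-/

set_option autoImplicit false

noncomputable section

namespace SEO

open HC HC.E HC.SE SEB SEQ

theorem modsO : ModsO where
  o3 := to3 to1 to2
  o4 := to4
  o5 := to5

/-- **Covers with at least four very general branch points**: see `FinU`. -/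
theorem finU : FinU := finU_of SEV.modsV SEK.modsK SEK.tJnk modsO

end SEO
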