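import Pool.Agent.Lib.SE.O.Asm
import Pool.Agent.Lib.SE.L.FnW

/-!
# PROJECT SE-O: the simple form of the final theorem (helper64, after helper59)
-/

set_option autoImplicit false

open Module

noncomputable section

namespace SEO

open HC HC.E HC.SE SEB SEQ SE SER SEE SES SEG SEZ SEK SEL SEL.FnM_aux

/-- The factors in the simple form: other factors, or new parts of all cyclic covers of the line whose branch set
`S` is contained in `{∞, s_1, …, s_p}`; if `S` has exactly 4 elements the exponents must have no symmetry `KlG`, or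
all signatures are `(1, 1)`. -/
def Fau {p : ℕ} (s : Fin p → ℂ) (G : AV) : Prop :=
  Fa0 G ∨ ∃ (m r : ℕ) (b : Fin (r + 1) → ℕ) (i : Fin (r + 1) → Fin p) (k : Option (Fin p)),
    Okk i k ∧ ∃ _ : New G m (pt s i k) b,
      (IsCov m (pt s i k) b ∧
        (r ≠ 2 ∨ KlG m b ∨ ∀ u < m, u.Coprime m → sg m r b u = 1)) ∨
      (m = 2 ∧ (∀ j, b j = 1) ∧ Even r ∧ 4 ≤ r)

/-- **THE FINAL THEOREM**, simple form. -/
def FinU : Prop :=
  ∃ M : (p : ℕ) → Set (Fin p → ℂ), (∀ p, IsMeagre (M p)) ∧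
  ∀ (p : ℕ) (s : Fin p → ℂ), s ∉ M p →
  ∀ (A B T : AV) (N' : ℕ) (G : Fin N' → AV), IsCM A → (∀ n, Fau s (G n)) → IsProdE B A G →
  ∀ (q N : ℕ) (J : Fin q → AV) (j : Fin N → Fin q) (m : Fin q → ℕ)
    (Z : ∀ i, Module.End ℂ (J i).V) (E : ∀ i, (J i).V →ₗ[ℝ] (J i).V →ₗ[ℝ] ℝ)
    (ψ : T.V ≃ₗ[ℂ] B.V × (∀ n, (J (j n)).V)),
    (∀ i, Fct (J i) (m i) (Z i)) → (∀ i, IsPol (J i) (Z i) (E i)) →
    (∀ v ∈ T.L, ∃ k : ℕ, k ≠ 0 ∧ k • (ψ v).1 ∈ B.L ∧ ∀ n, k • (ψ v).2 n ∈ (J (j n)).L) →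
    ∀ (d : ℕ) (c : Hlg T d), IsHodge T d c → SUK Z E ψ c → Alg2 T d c

/-- Signatures in rank 2. -/
theorem sg_two {m r : ℕ} {s : Fin (r + 1) → ℂ} {b : Fin (r + 1) → ℕ} (hc : IsCov m s b)
    (hr : r = 2) : (∃ u < m, u.Coprime m ∧ sg m r b u = 2) ∨
      ∀ u < m, u.Coprime m → sg m r b u = 1 := by
  subst hr
  by_contra hcon
  rw [not_or] at hcon
  obtain ⟨h1, h2⟩ := hcon
  push Not at h1 h2
  obtain ⟨u, hu, huc, hne⟩ := h2
  have hm := hc.1
  have h3 := tSg m 2 s b hc u hu huc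
  have h4 := h1 u hu huc
  have hu0 : u ≠ 0 := by
    rintro rfl
    rw [Nat.coprime_zero_left] at huc
    omega
  have h5 := h1 (m - u) (by omega) ((Nat.coprime_self_sub_left hu.le).2 huc)
  omega

/-- **THE FINAL THEOREM**, simple form, assembly. -/
theorem finU_of (Ms : SEV.ModsV) (K : SEK.ModsK) (hJ : SEK.S_Jnk) (M : ModsO) : FinU := by
  obtain ⟨M', hM', hJ⟩ := hJ MMt fun m r b =>
    (mmk_meagre SEU.tMxm m r b).union (mmr_meagre K m r b)
  refine ⟨M', hM', ?_⟩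
  intro p s hs A B T N' G hA hG hB q N J j m Z E ψ hFc hE hψ d c hc hS
  obtain ⟨hinj, hMM, hI⟩ := hJ p s hs
  -- the data
  have key : ∀ n, ∃ (μ ρ : ℕ) (β : Fin (ρ + 1) → ℕ) (σ : Fin (ρ + 1) → ℂ),
      ((FacV MMk (G n) ∨ ∀ P : AV → Prop, (∀ G, IsRM G → P G) → Dc P (G n)) ∧ μ = 0) ∨
        (NwD (G n) μ ρ β σ ∧ ∃ i k, Okk i k ∧ σ = pt s i k) := by
    intro n
    rcases hG n with h1 | ⟨m, r, b, i, k, hk, D, ⟨h1, h2⟩ | ⟨rfl, h2, h3, h4⟩⟩
    · refine ⟨0, 0, fun _ => 0, fun _ => 0, Or.inl ⟨Or.inl ?_, rfl⟩⟩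
      rcases h1 with h1 | h1 | h1 | h1
      · exact Or.inr (Or.inl h1)
      · exact Or.inr (Or.inr (Or.inl h1))
      · exact Or.inr (Or.inr (Or.inr (Or.inl h1)))
      · exact Or.inr (Or.inr (Or.inr (Or.inr (Or.inr h1))))
    · have hs' := hMM m r b i k hk
      rw [MMt, Set.mem_union, not_or] at hs'
      by_cases hr2 : r = 2
      · rcases sg_two h1 hr2 with h3 | h3
        · rcases h2 with h2 | h2 | h2
          · exact absurd hr2 h2
          · exact ⟨m, r, b, pt s i k, Or.inr ⟨nwD_k D h1 hr2 hs'.2 h2 h3, i, k, hk, rfl⟩⟩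
          · obtain ⟨u, hu, huc, h3⟩ := h3
            have := h2 u hu huc
            omega
        · exact ⟨0, 0, fun _ => 0, fun _ => 0,
            Or.inl ⟨Or.inr fun P hP => dc_new M hP D h1 hr2 h3, rfl⟩⟩
      · exact ⟨m, r, b, pt s i k, Or.inr ⟨nwD_nw (M := MMk) (fun m r b s hs => Or.inl hs)
          ⟨D, h1, Or.inl ⟨hr2, hs'.1⟩⟩, i, k, hk, rfl⟩⟩
    · obtain rfl : b = fun _ => 1 := funext h2
      have hs' := hMM 2 r (fun _ => 1) i k hk
      rw [MMt, Set.mem_union, not_or] at hs'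
      refine ⟨0, 0, fun _ => 0, fun _ => 0, Or.inl ⟨Or.inl ?_, rfl⟩⟩
      refine Or.inr (Or.inr (Or.inr (Or.inr (Or.inl
        ⟨r, pt s i k, D, h4, h3, ?_, hs'.1⟩))))
      rcases k with _ | k
      · exact hinj.comp hk.1
      · intro x y hxy
        have h5 : s (i x) - s k = s (i y) - s k := inv_injective hxy
        exact hk.1 (hinj (by linear_combination h5))
  choose μ ρ β σ key using key
  refine con_main3
    (F := fun G => FacV MMk G ∨ ∀ P : AV → Prop, (∀ G, IsRM G → P G) → Dc P G)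
    (fun K' hK' G hG => ?_) A B N' G μ ρ β σ hA (fun n => ?_)
    (fun n n' h1 h2 => ?_) hB T q N J j m Z E ψ hFc hE hψ d c hc hS
  · rcases hG with hG | hG
    · exact facV_dc Ms K' hK' G hG
    · exact hG _ fun G h => Or.inl (Or.inr h)
  · rcases key n with ⟨h1, -⟩ | ⟨h1, -⟩
    · exact Or.inl h1
    · exact Or.inr h1
  · have e0 : μ n ≠ 0 := by
      have := h1.1.1
      omega
    have e0' : μ n' ≠ 0 := by
      have := h2.1.1
      omega
    obtain ⟨-, i, k, e2, e3⟩ := (key n).resolve_left fun h => e0 h.2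
    obtain ⟨-, i', k', f2, f3⟩ := (key n').resolve_left fun h => e0' h.2
    by_cases hisg : Isg (G n) (G n')
    · exact Or.inl hisg
    right
    rcases Nat.lt_or_ge (ρ n) 2 with h3 | h3
    · refine Or.inl fun _ _ h4 => ?_
      obtain ⟨u, -, h5, h6⟩ := h4
      omega
    · refine Or.inr fun w1 w2 hr => ?_
      have c1 := h1.1
      have c2 := h2.1
      rw [e3] at c1 ⊢
      rw [f3] at c2 ⊢
      intro N N₁ D D' hD hD' hg hg'
      exact (hI _ _ _ _ _ _ i k i' k' e2 f2 h3 (by omega) w1 w2 c1 c2 _ _ N N₁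
        D D' hD hD' (fun _ => ⟨D, hD, hg⟩) (fun _ => ⟨D', hD', hg'⟩)).resolve_left hisg

end SEO
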