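import Pool.Agent.Lib.SE.O.Spec
import Pool.Agent.Lib.SE.K.Nw
import Pool.Agent.Lib.SE.L.Fn

/-!
# PROJECT SE-O: assembly (helper64)
-/

set_option autoImplicit false

open Module

noncomputable section

namespace SEO

open HC HC.E HC.SE SEB SEQ SEG SES SEU SEV

/-- The modules. -/
structure ModsO : Prop where
  o3 : S_o3
  o4 : S_o4
  o5 : S_o5

/-- A symmetric rational endomorphism with `dim T` different eigenvalues: product of factors with
real multiplication. -/
theorem dc_hasX (M : ModsO) (P : AV → Prop) (hP : ∀ G, IsRM G → P G) :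
    ∀ (n : ℕ) (T : AV), finrank ℂ T.V = n → HasX T → Dc P T := by
  obtain ⟨a1, a2, a3, -⟩ := SES.tDcA P
  intro n
  induction n using Nat.strong_induction_on with
  | _ n ih =>
    intro T hT hX
    rcases Nat.eq_zero_or_pos n with h0 | hpos
    · exact a1 T (SEG.isCM_zero (hT.trans h0))
    obtain ⟨E, X, s, hE, hr, hC, hS, hs, hm⟩ := hX
    obtain ⟨f, hf, hmf⟩ := tvM T X hr
    by_cases hi : Irreducible f
    · refine a2 T (hP T (vG_aux.rm X hr hC s f hm hmf hi ?_))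
      have h1 : (f.map (algebraMap ℚ ℝ)).natDegree = f.natDegree :=
        Polynomial.natDegree_map (algebraMap ℚ ℝ)
      rw [← h1, ← hmf, hm, ← hs, Polynomial.natDegree_prod_of_monic _ _
        fun a _ => Polynomial.monic_X_sub_C a]
      simp
    · obtain ⟨T₁, T₂, p1, p2, hsum, hprod, h1, h2⟩ :=
        M.o5 T E X s f hE hr hC hS hs hm hf hmf hi (by omega)
      exact a3 T T₁ T₂ (ih _ (by omega) T₁ rfl h1) (ih _ (by omega) T₂ rfl h2) hprod

/-- **ALL SIGNATURES `(1, 1)`.** -/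
theorem dc_one (M : ModsO) {P : AV → Prop} (hP : ∀ G, IsRM G → P G) {T : AV} {m : ℕ} (D : Cyc T m)
    (hm : 3 ≤ m) (hd : finrank ℂ T.V = m.totient) (hp : ∀ s, D.p s = 1) : Dc P T := by
  obtain ⟨X, hr, hC, hS, Λ, hΛ, hev⟩ := M.o3 T m D hm hd hp
  have hE : IsRf T D.ψ := ⟨D.int, D.alt, D.cpx, D.pos⟩
  obtain ⟨s, hs, hmin⟩ := M.o4 T D.ψ hE X hC hS Λ hΛ hev
  exact dc_hasX M P hP _ T rfl ⟨D.ψ, X, s, hE, hr, hC, hS, hs, hmin⟩

/-- The new part of a cover with four branch points and all signatures `(1, 1)`. -/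
theorem dc_new (M : ModsO) {P : AV → Prop} (hP : ∀ G, IsRM G → P G) {G : AV} {m r : ℕ}
    {s : Fin (r + 1) → ℂ} {b : Fin (r + 1) → ℕ} (N : New G m s b) (hc : IsCov m s b) (hr : r = 2)
    (hsg : ∀ u < m, u.Coprime m → sg m r b u = 1) : Dc P G := by
  subst hr
  obtain ⟨E, hE⟩ := SEB.exists_pol tAvg hc N
  have : NeZero m := ⟨by have := hc.1; omega⟩
  have hp' : ∀ u : (ZMod m)ˣ, (mkCyc N hE).p u = sg m 2 b (u : ZMod m).val :=
    mods5.Pn mods5.Sg mods.Bas G m 2 s b hc N (mkCyc N hE) rfl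
  refine dc_one M hP (mkCyc N hE) hc.1 (by have := N.dim; omega) fun u => ?_
  rw [hp']
  exact hsg _ (ZMod.val_lt _) (ZMod.val_coe_unit_coprime u)

end SEO
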