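import Pool.Agent.Lib.SE.V.Main
import Pool.Agent.Lib.SE.Q.SpecB
import Pool.Agent.Lib.SE.S.SpecR

/-!
# PROJECT SE-O: rank 2, all signatures `(1, 1)` (helper64)

`T` with `D : Cyc T m` (SE/Big/Spec.lean; `E = ℚ(ζ_m)` acts on `T`, Riemann form `D.ψ` invariant under `D.Z`),
`dim T = φ(m)`, so that all eigenspaces `Ws D s` have dimension 2 (`tDim`), and all signatures `D.p s = 1`.
Then there is a rational complex linear symmetric `Y ≠ 0` with `Y Z = Z⁻¹ Y`, and `X = c (Z + Z⁻¹) + Y` has `dim T`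
different eigenvalues, all real: `T` is isogenous to a product of abelian varieties with real multiplication.

Every module: file `SE/O/oXyz.lean`, `theorem toXyz : S_oXyz`, namespace `SEO` (after it
`open HC HC.E HC.SE SEB SES SEU SEV`), import `Pool.Agent.Lib.SE.O.Spec` and the proved modules you want. If the
docstring says `From S_A` the theorem is `toXyz : S_A → S_oXyz`. Auxiliary lemmas in `namespace SEO.oXyz_aux`.

Proved and useful: `tDim tPj tTw tBas`-like theorems for `S_Dim`, `S_Pj`, `S_Tw`, `S_Bas` of SE/Big/Spec.lean (files SE/Big/Dim.lean,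
SE/Big/Bas.lean, ...); `Cx`, `Sy`, `Scal` (SE/U/Spec.lean); `IsRf` (SE/S/Defs.lean); `pre X a = a ∘ X`.
-/

set_option autoImplicit false

open Module

noncomputable section

namespace SEO

open HC HC.E HC.SE SEB SES SEU SEV

/-- **o1**: EXISTENCE. PROOF. For `v, w ∈ T.L`: `M x = ψ(v, x) w - ψ(w, x) v` is rational (integral) and symmetric:
`ψ(M x, y) = ψ(v,x) ψ(w,y) - ψ(w,x) ψ(v,y) = ψ(x, M y)`. `Y = ∑_(k < m) Z^k M Z^k`: rational; `Z Y Z = Y` (shift of `k`, `Z^m = 1`,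
`tPj`); symmetric, because `ψ(Z^k M Z^k x, y) = ψ(x, Z^(-k) M Z^(-k) y)`. `Y ≠ 0` for some `v, w`: let `s` be a character,
`0 ≠ a ∈ Ws D s` (dimension 2, `tDim`). `a(Y x) = ∑_k zet(s)^k a(M Z^k x) = m (pj D (-s) (a ∘ M)) x`, so
`pre Y a = m (a(w) Ψ_v - a(v) Ψ_w)`, `Ψ_v = pj D (-s) (ψ(v, ·)) ∈ Ws D (-s)` (as a complex valued form). `a(w) ≠ 0` for some `w ∈ T.L`
(`T.L` spans `T.V`). If `pre Y a = 0` for all `v ∈ T.L`: `Ψ_v = (a(v)/a(w)) Ψ_w`, for all `v ∈ T.V` by linearity; the forms `ψ(v, ·)`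
span `Frm T` over `ℂ` (`ψ` is nondegenerate), and `pj D (-s)` maps `Frm T` onto `Ws D (-s)`: it has dimension `≤ 1`,
contradiction to `tDim`. -/
def S_o1 : Prop :=
  ∀ (T : AV) (m : ℕ) (D : Cyc T m), 3 ≤ m → finrank ℂ T.V = m.totient →
    ∃ Y : Module.End ℝ T.V, RatEnd T Y ∧ Sy D.ψ Y ∧ (∀ v, D.Z (Y (D.Z v)) = Y v) ∧ Y ≠ 0

/-- **o2**: COMPLEX LINEAR, AND INJECTIVE OR ZERO ON EVERY EIGENSPACE. PROOF. `Ws D s` has the basis `a_s` of type `(1,0)` (`p s = 1`)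
and `b_s` of type `(0,1)` (`a (i v) = -i a v`; the complex conjugate of `a_(-s)`, `tBas`; every `a ∈ Ws D s` is
`(a - i a∘J)/2 + (a + i a∘J)/2`). All of them form a basis of `Frm T`. (1) A bilinear `B : T.V × T.V → ℂ` is
`B(x, y) = ∑_s (α_s(x) a_s(y) + β_s(x) b_s(y))`. For `B(x, y) = ψ(Y x, y)`: it is alternating (`Y` symmetric), and `B(Z x, y) = B(x, Z y)`, so
`α_s, β_s ∈ Ws D s`; alternating: `α_s = -q_s b_s`, `β_s = q_s a_s` (compare coefficients: `B(x,y) = -B(y,x)`, `α_s = p a_s + r b_s`,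
`β_s = p' a_s + r' b_s` give `p = 0`, `r' = 0`, `p' = -r`). (2) `ψ(z, y) = ∑_s (c_s(z) a_s(y) + d_s(z) b_s(y))`: `ψ(Z z, Z y) = ψ(z, y)` and
`ψ(J z, J y) = ψ(z, y)` give `c_s, d_s ∈ Ws D (-s)`, `c_s` of type `(0,1)`, `d_s` of type `(1,0)`; `ψ` is nondegenerate, so these are a
basis of `Frm T`, `c_s`, `d_s` a basis of `Ws D (-s)`. (3) Compare: `c_s ∘ Y = -q_s b_s`, `d_s ∘ Y = q_s a_s`. So `pre Y` respects the types
(on a basis), `Y` is complex linear; it is `0` on `Ws D (-s)` if `q_s = 0` and injective if `q_s ≠ 0`. -/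
def S_o2 : Prop :=
  ∀ (T : AV) (m : ℕ) (D : Cyc T m), 3 ≤ m → finrank ℂ T.V = m.totient → (∀ s, D.p s = 1) →
    ∀ Y : Module.End ℝ T.V, Sy D.ψ Y → (∀ v, D.Z (Y (D.Z v)) = Y v) →
    Cx Y ∧ ∀ s, (∃ a ∈ Ws D s, pre Y a ≠ 0) → ∀ a ∈ Ws D s, pre Y a = 0 → a = 0

/-- **o3**: MANY EIGENVALUES. From `S_o1`, `S_o2`, `SEQ.S_GaH` (`SEQ.tGaH`, SE/Q/GaH.lean). PROOF. `Y` as in `S_o1`, `S_o2`. `Z Y Z = Y`: `pre Y` maps
`Ws D s` to `Ws D (-s)`. It is not `0` on some `Ws D s₀` (`tBas`), so by `S_GaH` (`T' = T`, `M = m`, `t = -s`; `pj D (-s)` is the identity on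
`Ws D (-s)`; `rho dvd_rfl ρ s = ρ s`) on no `Ws D s`, so it is injective on all of them (`S_o2`). `Ws10 D s = ℂ a_s` (`p s = 1`), `pre Y a_s = α_s a_(-s)`
(`Cx Y`), `α_s ≠ 0`. `X = c (Z + Z^(m-1)) + Y`, `c ∈ ℕ`: rational, complex linear, symmetric (`ψ(Z x, y) = ψ(x, Z⁻¹ y)`).
`λ_s = zet(s) + zet(s)⁻¹ = λ_(-s)`; `pre X a_s = c λ_s a_s + α_s a_(-s)`. Choose `β_s` with `β_s² = α_s α_(-s)` and `β_(-s) = -β_s` (a fixed square
root of `α_s α_(-s)` times the sign given by `s.val < (-s).val`; `s ≠ -s` as `3 ≤ m`). `α_(-s) a_s + β_s a_(-s) ≠ 0` is an eigenvector of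
`pre X` with eigenvalue `e_s = c λ_s + β_s`. `e_s ≠ e_(-s)` as `β_s ≠ 0`. For `t ≠ s, -s`: `λ_s ≠ λ_t` (`x + 1/x = y + 1/y` only if `y = x` or
`y = 1/x`; `zet` is injective on characters), so `e_s = e_t` for at most one `c`: choose `c` outside a finite set. `Λ` = the set of
the `e_s`, `card = φ(m)`. -/
def S_o3 : Prop :=
  ∀ (T : AV) (m : ℕ) (D : Cyc T m), 3 ≤ m → finrank ℂ T.V = m.totient → (∀ s, D.p s = 1) →
    ∃ X : Module.End ℝ T.V, RatEnd T X ∧ Cx X ∧ Sy D.ψ X ∧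
      ∃ Λ : Finset ℂ, Λ.card = finrank ℂ T.V ∧ ∀ l ∈ Λ, ∃ a : Frm T, a ≠ 0 ∧ pre X a = l • a

/-- **o4**: THE DEGREE. From `S_vE` (`SEV.tvE`). PROOF. `S_vE`: `s.card ≤ dim T`, `minpoly ℝ X = ∏_(a ∈ s) (x - a)`. For `l ∈ Λ`: `p(X) = 0`,
`p = minpoly ℝ X`, so `0 = a ∘ p(X) = p(l) a` (`pre` is real linear and reverses products, so `pre (p(X)) = p(pre X)`; induction on
polynomials), `p(l) = 0`, so `l` is one of the `a ∈ s`: `Λ ⊆ s.image`, `dim T = Λ.card ≤ s.card`. -/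
def S_o4 : Prop :=
  ∀ (T : AV) (E : T.V →ₗ[ℝ] T.V →ₗ[ℝ] ℝ), IsRf T E → ∀ X : Module.End ℝ T.V, Cx X → Sy E X →
    ∀ Λ : Finset ℂ, Λ.card = finrank ℂ T.V → (∀ l ∈ Λ, ∃ a : Frm T, a ≠ 0 ∧ pre X a = l • a) →
    ∃ s : Finset ℝ, s.card = finrank ℂ T.V ∧
      minpoly ℝ X = ∏ a ∈ s, (Polynomial.X - Polynomial.C a)

/-- A symmetric rational endomorphism with `dim T` different eigenvalues. -/
def HasX (T : AV) : Prop :=
  ∃ (E : T.V →ₗ[ℝ] T.V →ₗ[ℝ] ℝ) (X : Module.End ℝ T.V) (s : Finset ℝ), IsRf T E ∧ RatEnd T X ∧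
    Cx X ∧ Sy E X ∧ s.card = finrank ℂ T.V ∧
    minpoly ℝ X = ∏ a ∈ s, (Polynomial.X - Polynomial.C a)

/-- **o5**: SPLITTING. From `S_vE`. PROOF. As SE/V/vF.lean, SE/V/vS.lean: `f = g h`, coprime, not units; `P = (a g)(X)` a rational complex
linear projection, `≠ 0, 1`, a polynomial in `X`. `T₁ = range P`, `T₂ = ker P` (complex subspaces, lattices `T.L ∩ V_i`; `uS_aux.ex_sub`:
`T_i` with an isomorphism `e_i : V_i ≃ T_i.V`), `ψ = (P, 1 - P)`. `X` commutes with `P`, so it preserves the `V_i`: `X_i` = its restriction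
(transported by `e_i`), rational, complex linear, symmetric for the restriction `E_i` of `E`, a Riemann form. `S_vE` for `T_i`:
`minpoly ℝ X_i = ∏_(s_i)`, `s_i.card ≤ dim T_i`. `(∏_(s₁) (x - a) ∏_(s₂) (x - a))(X) = 0` (on `V₁` and on `V₂`), so the minimal polynomial
of `X` divides it: `dim T = s.card ≤ s₁.card + s₂.card ≤ dim T₁ + dim T₂ = dim T`, equality. (`¬ Irreducible f`, `f` not a unit as
`s` is not empty: `0 < finrank`.) -/
def S_o5 : Prop :=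
  ∀ (T : AV) (E : T.V →ₗ[ℝ] T.V →ₗ[ℝ] ℝ) (X : Module.End ℝ T.V) (s : Finset ℝ)
    (f : Polynomial ℚ), IsRf T E → RatEnd T X → Cx X → Sy E X → s.card = finrank ℂ T.V →
    minpoly ℝ X = ∏ a ∈ s, (Polynomial.X - Polynomial.C a) → f.Monic →
    minpoly ℝ X = f.map (algebraMap ℚ ℝ) → ¬ Irreducible f → 0 < finrank ℂ T.V →
    ∃ T₁ T₂ : AV, 0 < finrank ℂ T₁.V ∧ 0 < finrank ℂ T₂.V ∧
      finrank ℂ T₁.V + finrank ℂ T₂.V = finrank ℂ T.V ∧ IsProd T T₁ T₂ ∧ HasX T₁ ∧ HasX T₂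

end SEO
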